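import Pool.Agent.K4H87.FM.Num
import Pool.Agent.R580.CD.Amp

set_option autoImplicit false

/-!
# Disjoint copies, cross-polytopes, joins of cycles
-/

namespace Pool.Agent.K4H87.FM

open Finset Pool.Agent.R580.CD Polynomial

section copies

variable {V : Type} [Fintype V] [LinearOrder V]

/-- `N` disjoint copies of `G` -/
def dj (N : ℕ) (G : SimpleGraph V) : SimpleGraph (Fin N ×ₗ V) where
  Adj p q := (ofLex p).1 = (ofLex q).1 ∧ G.Adj (ofLex p).2 (ofLex q).2
  symm := ⟨fun _ _ h => ⟨h.1.symm, h.2.symm⟩⟩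
  loopless := ⟨fun _ h => G.loopless.irrefl _ h.2⟩

/-- the `j`-th copy -/
def jv {N : ℕ} (j : Fin N) : V ↪ Fin N ×ₗ V := ⟨fun x => toLex (j, x), fun x y h => by
  have := congrArg (fun p => (ofLex p).2) h
  exact this⟩

theorem jv_mono {N : ℕ} (j : Fin N) : StrictMono (jv j : V ↪ Fin N ×ₗ V) := by
  intro x y hxy
  exact Prod.Lex.toLex_lt_toLex.mpr (Or.inr ⟨rfl, hxy⟩)

theorem jv_adj {N : ℕ} (j : Fin N) {G : SimpleGraph V} {A : Set V} :
    ∀ x ∈ A, ∀ y ∈ A, G.Adj x y ↔ (dj N G).Adj (jv j x) (jv j y) :=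
  fun x _ y _ => ⟨fun h => ⟨rfl, h⟩, fun h => h.2⟩

theorem dj_nbr {N : ℕ} {G : SimpleGraph V} (j : Fin N) (x : V) :
    (dj N G).neighborSet (jv j x) = jv j '' (G.neighborSet x) := by
  ext q
  constructor
  · intro h
    refine ⟨(ofLex q).2, h.2, ?_⟩
    show toLex (j, (ofLex q).2) = q
    have h1 : j = (ofLex q).1 := h.1
    rw [h1]
    rfl
  · rintro ⟨y, hy, rfl⟩
    exact ⟨rfl, hy⟩

theorem dj_fp (N : ℕ) (G : SimpleGraph V) :
    fp (dj N G) Set.univ = 1 + (N : ℤ[X]) * (fp G Set.univ - 1) := by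
  apply eq_of_deriv
  · rw [fp_deriv]
    have h1 : ∑ p : Fin N ×ₗ V, fp (dj N G) ((dj N G).neighborSet p) =
        ∑ p : Fin N × V, fp (dj N G) ((dj N G).neighborSet (jv p.1 p.2)) := rfl
    rw [h1]
    have h2 : ∀ p : Fin N × V, fp (dj N G) ((dj N G).neighborSet (jv p.1 p.2)) =
        fp G (G.neighborSet p.2) := by
      intro p
      rw [dj_nbr, fp_map (jv p.1) (jv_adj p.1)]
    rw [Finset.sum_congr rfl fun p _ => h2 p, Fintype.sum_prod_type]
    show ∑ _x : Fin N, ∑ y : V, fp G (G.neighborSet y) = _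
    rw [Finset.sum_const, ← fp_deriv]
    simp only [Polynomial.derivative_add, Polynomial.derivative_mul, Polynomial.derivative_one,
      Polynomial.derivative_natCast, Polynomial.derivative_sub]
    rw [Finset.card_univ, Fintype.card_fin, nsmul_eq_mul]
    ring
  · rw [fp_eval_zero]
    simp [fp_eval_zero]

theorem dj_link {F : Type} [Field F] {d N : ℕ} {G : SimpleGraph V} (hS : Sph F d G)
    (T : Finset (Fin N ×ₗ V)) (hT : (dj N G).IsClique (T : Set (Fin N ×ₗ V))) (hne : T.Nonempty)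
    (i : ℕ) : betti F (dj N G) (lnk (dj N G) T) i = if i + T.card = d then 1 else 0 := by
  classical
  obtain ⟨p, hp⟩ := hne
  set j : Fin N := (ofLex p).1 with hj
  have hpj : ∀ q ∈ T, (ofLex q).1 = j := by
    intro q hq
    by_cases hqp : q = p
    · rw [hqp]
    · exact (hT hq hp hqp).1
  set R : Finset V := univ.filter (fun x => jv j x ∈ T) with hR
  have hTR : T = R.map (jv j) := by
    ext q
    rw [Finset.mem_map]
    constructor
    · intro hq
      refine ⟨(ofLex q).2, ?_, ?_⟩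
      · rw [hR, Finset.mem_filter]
        refine ⟨mem_univ _, ?_⟩
        have : jv j (ofLex q).2 = q := by
          rw [← hpj q hq]
          rfl
        rw [this]
        exact hq
      · rw [← hpj q hq]
        rfl
    · rintro ⟨x, hx, rfl⟩
      rw [hR, Finset.mem_filter] at hx
      exact hx.2
  have hRc : G.IsClique (R : Set V) := by
    intro x hx y hy hxy
    rw [Finset.mem_coe, hR, Finset.mem_filter] at hx hy
    exact (hT hx.2 hy.2 (fun h => hxy ((jv j).injective h))).2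
  have hcard : T.card = R.card := by rw [hTR, Finset.card_map]
  have hRne : R.Nonempty := by
    refine ⟨(ofLex p).2, ?_⟩
    rw [hR, Finset.mem_filter]
    exact ⟨mem_univ _, hp⟩
  have hl : lnk (dj N G) T = jv j '' (lnk G R) := by
    ext q
    constructor
    · intro hq
      have h1 : ∀ u ∈ T, (dj N G).Adj q u := hq
      have hqj : (ofLex q).1 = j := (h1 p hp).1
      refine ⟨(ofLex q).2, ?_, ?_⟩
      · intro x hx
        rw [hR, Finset.mem_filter] at hx
        exact (h1 _ hx.2).2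
      · rw [← hqj]
        rfl
    · rintro ⟨x, hx, rfl⟩
      intro u hu
      rw [hTR, Finset.mem_map] at hu
      obtain ⟨y, hy, rfl⟩ := hu
      exact ⟨rfl, hx y hy⟩
  rw [hl, betti_map (jv j) (jv_mono j) (jv_adj j), hS R hRc i, hcard]

end copies

/-- the boundary of the cross-polytope of dimension `2r` -/
theorem exists_cross (r : ℕ) : ∃ (V : Type) (_ : Fintype V) (_ : LinearOrder V)
    (G : SimpleGraph V), GHS (2 * r) G ∧ Fintype.card V = 4 * r ∧
      fp G Set.univ = (1 + 2 * X : ℤ[X]) ^ (2 * r) := by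
  induction r with
  | zero =>
    refine ⟨Fin 0, inferInstance, inferInstance, ⊥, ?_, by simp, ?_⟩
    · intro K _ T hT i
      have h1 : T = ∅ := by
        ext x
        exact x.elim0
      have h2 : lnk (⊥ : SimpleGraph (Fin 0)) T = ∅ := by
        ext x
        exact x.elim0
      rw [h2, betti_empty, h1]
      simp
    · have h2 : (Set.univ : Set (Fin 0)) = ∅ := by
        ext x
        exact x.elim0
      rw [h2, fp_empty]
      simp
  | succ r ih =>
    obtain ⟨V, i1, i2, G, hG, hc, hf⟩ := ih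
    refine ⟨V ⊕ₗ Fin 4, inferInstance, inferInstance, jn G 4, fun K _ => ?_, ?_, ?_⟩
    · have := jn_sph (m := 4) le_rfl (hG K)
      rw [show 2 * (r + 1) = 2 * r + 2 by ring]
      exact this
    · show Fintype.card (V ⊕ Fin 4) = _
      rw [Fintype.card_sum, hc, Fintype.card_fin]
      ring
    · rw [fp_jn le_rfl, hf]
      rw [show 2 * (r + 1) = 2 * r + 2 by ring, pow_add]
      push_cast
      ring

/-- The graph of the join of the cycles with `a j` vertices (for `a j ≥ 4`). -/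
def joinCycles {r : ℕ} (a : Fin r → ℕ) : SimpleGraph (Σ j : Fin r, Fin (a j)) :=
  SimpleGraph.fromRel fun p q => p.1 ≠ q.1 ∨
    (p.1 = q.1 ∧ (p.2.val + 1 = q.2.val ∨ (p.2.val = 0 ∧ q.2.val + 1 = a q.1)))

theorem jc_adj_ne {r : ℕ} {a : Fin r → ℕ} {p q : Σ j : Fin r, Fin (a j)} (h : p.1 ≠ q.1) :
    (joinCycles a).Adj p q := by
  unfold joinCycles
  rw [SimpleGraph.fromRel_adj]
  exact ⟨fun h1 => h (by rw [h1]), Or.inl (Or.inl h)⟩

theorem jc_adj_eq {r : ℕ} {a : Fin r → ℕ} {j : Fin r} {x y : Fin (a j)} :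
    (joinCycles a).Adj ⟨j, x⟩ ⟨j, y⟩ ↔ cadj (a j) x y := by
  unfold joinCycles cadj
  rw [SimpleGraph.fromRel_adj]
  simp only [ne_eq, not_true_eq_false, true_and, false_or, Sigma.mk.injEq, heq_eq_eq]
  tauto

theorem jc_fp : ∀ (r : ℕ) (a : Fin r → ℕ), (∀ j, 4 ≤ a j) →
    ∀ [LinearOrder (Σ j : Fin r, Fin (a j))],
      fp (joinCycles a) Set.univ = ∏ j : Fin r, (1 + (a j : ℤ[X]) * X + (a j : ℤ[X]) * X ^ 2) := by
  intro r
  induction r with
  | zero =>
    intro a _ _
    have h2 : (Set.univ : Set (Σ j : Fin 0, Fin (a j))) = ∅ := by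
      ext x
      exact x.1.elim0
    rw [h2, fp_empty]
    simp
  | succ r ih =>
    intro a ha _
    have i1 : LinearOrder (Σ j : Fin r, Fin (a j.succ)) :=
      LinearOrder.lift' (Fintype.equivFin _) (Equiv.injective _)
    have h1 := ih (fun j => a j.succ) (fun j => ha _)
    have h2 := fp_jn (G := joinCycles (fun j : Fin r => a j.succ)) (ha 0)
    rw [h1] at h2
    rw [Fin.prod_univ_succ, ← h2]
    let e : ((Σ j : Fin r, Fin (a j.succ)) ⊕ₗ Fin (a 0)) ↪ (Σ j : Fin (r + 1), Fin (a j)) :=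
      ⟨fun p => Sum.elim (fun q => ⟨q.1.succ, q.2⟩) (fun x => ⟨0, x⟩) (ofLex p), by
        intro p q h
        rcases il_or_ir p with ⟨x, rfl⟩ | ⟨x, rfl⟩ <;> rcases il_or_ir q with ⟨y, rfl⟩ | ⟨y, rfl⟩
        · have h' : (⟨x.1.succ, x.2⟩ : Σ j : Fin (r + 1), Fin (a j)) = ⟨y.1.succ, y.2⟩ := h
          obtain ⟨x1, x2⟩ := x
          obtain ⟨y1, y2⟩ := y
          simp only [Sigma.mk.injEq, Fin.succ_inj] at h'
          obtain ⟨rfl, h4⟩ := h'
          rw [eq_of_heq h4]
        · have h' : (⟨x.1.succ, x.2⟩ : Σ j : Fin (r + 1), Fin (a j)) = ⟨0, y⟩ := h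
          have := congrArg Sigma.fst h'
          exact absurd this (Fin.succ_ne_zero _)
        · have h' : (⟨0, x⟩ : Σ j : Fin (r + 1), Fin (a j)) = ⟨y.1.succ, y.2⟩ := h
          have := congrArg Sigma.fst h'
          exact absurd this.symm (Fin.succ_ne_zero _)
        · have h' : (⟨0, x⟩ : Σ j : Fin (r + 1), Fin (a j)) = ⟨0, y⟩ := h
          simp only [Sigma.mk.injEq, heq_eq_eq, true_and] at h'
          rw [h']⟩
    have he1 : ∀ x, e (il x) = ⟨x.1.succ, x.2⟩ := fun x => rfl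
    have he2 : ∀ x, e (ir x) = ⟨0, x⟩ := fun x => rfl
    have h3 := fp_map (G := jn (joinCycles (fun j : Fin r => a j.succ)) (a 0))
      (H := joinCycles a) e (A := Set.univ) (by
        intro p _ q _
        rcases il_or_ir p with ⟨x, rfl⟩ | ⟨x, rfl⟩ <;> rcases il_or_ir q with ⟨y, rfl⟩ | ⟨y, rfl⟩
        · rw [adj_ll, he1, he1]
          obtain ⟨x1, x2⟩ := x
          obtain ⟨y1, y2⟩ := y
          by_cases hxy : x1 = y1
          · subst hxy
            rw [jc_adj_eq, jc_adj_eq]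
          · constructor
            · intro _
              exact jc_adj_ne (fun h => hxy (Fin.succ_injective _ h))
            · intro _
              exact jc_adj_ne hxy
        · rw [he1, he2]
          exact ⟨fun _ => jc_adj_ne (Fin.succ_ne_zero _), fun _ => adj_lr⟩
        · rw [he1, he2]
          exact ⟨fun _ => jc_adj_ne (Ne.symm (Fin.succ_ne_zero _)), fun _ => adj_rl⟩
        · rw [he2, he2, adj_rr, jc_adj_eq])
    rw [← h3]
    congr 1
    ext p
    simp only [Set.mem_univ, Set.image_univ, Set.mem_range, true_iff]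
    obtain ⟨j, x⟩ := p
    rcases Fin.eq_zero_or_eq_succ j with rfl | ⟨k, rfl⟩
    · exact ⟨ir x, rfl⟩
    · exact ⟨il ⟨k, x⟩, rfl⟩

/-- the elementary symmetric functions -/
noncomputable def esy {r : ℕ} (b : Fin r → ℤ) (i : ℕ) : ℤ :=
  ∑ t ∈ Finset.powersetCard i (univ : Finset (Fin r)), ∏ j ∈ t, b j

theorem prod_eq_Phi {r : ℕ} (a : Fin r → ℕ) :
    ∏ j : Fin r, (1 + (a j : ℤ[X]) * X + (a j : ℤ[X]) * X ^ 2) =
      Phi (2 * r) (esy fun j => (a j : ℤ) - 4) := by
  have h1 : ∀ j : Fin r, (1 + (a j : ℤ[X]) * X + (a j : ℤ[X]) * X ^ 2) =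
      C ((a j : ℤ) - 4) * (X + X ^ 2) + (1 + 2 * X) ^ 2 := by
    intro j
    have : (C ((a j : ℤ) - 4) : ℤ[X]) = (a j : ℤ[X]) - 4 := by simp
    rw [this]
    ring
  rw [Finset.prod_congr rfl fun j _ => h1 j, Finset.prod_add, Finset.sum_powerset]
  unfold Phi esy
  rw [Finset.card_univ, Fintype.card_fin, show 2 * r / 2 + 1 = r + 1 by omega]
  refine Finset.sum_congr rfl fun i hi => ?_
  rw [map_sum, Finset.sum_mul, Finset.sum_mul]
  refine Finset.sum_congr rfl fun t ht => ?_
  rw [Finset.mem_powersetCard] at ht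
  rw [Finset.prod_mul_distrib, Finset.prod_const, Finset.prod_const, ht.2, ← pow_mul,
    Finset.card_sdiff_of_subset ht.1, Finset.card_univ, Fintype.card_fin, ht.2, map_prod]
  congr 2
  omega

/-- the `γ`-vector of the join of cycles -/
theorem isGamma_jc {r : ℕ} (a : Fin r → ℕ) (ha : ∀ j, 4 ≤ a j) :
    IsGamma r (faces (joinCycles a)) (esy fun j => (a j : ℤ) - 4) := by
  have i1 : LinearOrder (Σ j : Fin r, Fin (a j)) :=
    LinearOrder.lift' (Fintype.equivFin _) (Equiv.injective _)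
  apply isGamma_of_Phi
  intro k
  rw [← prod_eq_Phi, ← jc_fp r a ha, coeff_fp]

theorem esy_const {r : ℕ} (b : ℤ) (i : ℕ) : esy (fun _ : Fin r => b) i = (r.choose i : ℤ) * b ^ i := by
  unfold esy
  have : ∀ t ∈ Finset.powersetCard i (univ : Finset (Fin r)), ∏ _j ∈ t, b = b ^ i := by
    intro t ht
    rw [Finset.mem_powersetCard] at ht
    rw [Finset.prod_const, ht.2]
  rw [Finset.sum_congr rfl this, Finset.sum_const, Finset.card_powersetCard, Finset.card_univ,
    Fintype.card_fin, nsmul_eq_mul]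

theorem esy_pos {r : ℕ} {b : Fin r → ℤ} (hb : ∀ j, 0 < b j) {i : ℕ} (hi : i ≤ r) : 0 < esy b i := by
  unfold esy
  apply Finset.sum_pos
  · intro t _
    exact Finset.prod_pos fun j _ => hb j
  · rw [Finset.powersetCard_nonempty]
    simpa using hi

end Pool.Agent.K4H87.FM
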