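import Pool.Agent.R580.CD.Gam

set_option autoImplicit false
set_option linter.unusedSectionVars false

/-!
# Homology and face polynomials of sets of vertices which are built up step by step
-/

namespace Pool.Agent.K4H87.FM

open Finset Pool.Agent.R580.CD
open Polynomial (X)

section

variable {V : Type} [Fintype V] [LinearOrder V] (F : Type) [Field F] (G : SimpleGraph V)

/-- acyclic sets of vertices -/
def Acyc (A : Set V) : Prop := ∀ i, Zy F G A i ≤ By F G A i

variable {F G}

theorem Acyc.betti {A : Set V} (h : Acyc F G A) (i : ℕ) : betti F G A i = 0 :=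
  betti_eq_zero.2 (h i)

theorem acyc_of_betti {A : Set V} (h : ∀ i, Pool.Agent.R580.CD.betti F G A i = 0) :
    Acyc F G A := fun i => betti_eq_zero.1 (h i)

theorem acyc_cone {A : Set V} {v : V} (hv : v ∈ A) (h : ∀ u ∈ A, u ≠ v → G.Adj v u) :
    Acyc F G A := fun i => cone hv h i

theorem insert_betti {A : Set V} {v : V} (hA : Acyc F G A) (hv : v ∉ A) :
    betti F G (insert v A) 0 = 0 ∧
      ∀ i, betti F G (insert v A) (i + 1) = betti F G (A ∩ G.neighborSet v) i := by
  have h1 := union (F := F) (G := G) (A := A) (B := insert v (A ∩ G.neighborSet v)) (by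
    intro a ha haB b hb hbA hab
    rcases hb with rfl | hb
    · exact haB (Or.inr ⟨ha, hab.symm⟩)
    · exact hbA hb.1) hA (fun i => cone (v := v) (Set.mem_insert _ _) (by
    intro u hu huv
    rcases hu with rfl | hu
    · exact absurd rfl huv
    · exact hu.2) i)
  have h2 : A ∪ insert v (A ∩ G.neighborSet v) = insert v A := by
    ext x
    simp only [Set.mem_union, Set.mem_insert_iff, Set.mem_inter_iff]
    tauto
  have h3 : A ∩ insert v (A ∩ G.neighborSet v) = A ∩ G.neighborSet v := by
    ext x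
    simp only [Set.mem_insert_iff, Set.mem_inter_iff]
    constructor
    · rintro ⟨h4, rfl | h5⟩
      · exact absurd h4 hv
      · exact h5
    · intro h4
      exact ⟨h4.1, Or.inr h4⟩
  rw [h2, h3] at h1
  exact h1

/-- adding a vertex whose link is a cone -/
theorem acyc_insert {A : Set V} {v w : V} (hA : Acyc F G A) (hv : v ∉ A)
    (hw : w ∈ A ∩ G.neighborSet v) (h : ∀ u ∈ A ∩ G.neighborSet v, u ≠ w → G.Adj w u) :
    Acyc F G (insert v A) := by
  obtain ⟨h1, h2⟩ := insert_betti hA hv
  refine acyc_of_betti fun i => ?_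
  cases i with
  | zero => exact h1
  | succ i =>
    rw [h2]
    exact (acyc_cone hw h).betti i

theorem susp_inter {A : Set V} {p q : V} (hn : ¬ G.Adj p q) (hq : ∀ u ∈ A, G.Adj q u) :
    insert p A ∩ G.neighborSet q = A := by
  ext x
  constructor
  · rintro ⟨rfl | h1, h2⟩
    · exact absurd (SimpleGraph.Adj.symm h2) hn
    · exact h1
  · intro h
    exact ⟨Or.inr h, hq x h⟩

theorem susp_betti {A : Set V} {p q : V} (hpq : p ≠ q) (hn : ¬ G.Adj p q)
    (hp : ∀ u ∈ A, G.Adj p u) (hq : ∀ u ∈ A, G.Adj q u) :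
    betti F G (insert q (insert p A)) 0 = 0 ∧
      ∀ i, betti F G (insert q (insert p A)) (i + 1) = betti F G A i := by
  have hqA : q ∉ insert p A := by
    rintro (h | h)
    · exact hpq h.symm
    · exact G.loopless.irrefl q (hq q h)
  have h1 := insert_betti (F := F) (A := insert p A) (acyc_cone (Set.mem_insert _ _) (by
    rintro u (rfl | hu) huv
    · exact absurd rfl huv
    · exact hp u hu)) hqA
  rw [susp_inter hn hq] at h1
  exact h1

theorem susp_fp {A : Set V} {p q : V} (hpq : p ≠ q) (hn : ¬ G.Adj p q)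
    (hp : ∀ u ∈ A, G.Adj p u) (hq : ∀ u ∈ A, G.Adj q u) :
    fp G (insert q (insert p A)) = (1 + 2 * X) * fp G A := by
  have hpA : p ∉ A := fun h => G.loopless.irrefl p (hp p h)
  have hqA : q ∉ insert p A := by
    rintro (h | h)
    · exact hpq h.symm
    · exact G.loopless.irrefl q (hq q h)
  rw [fp_insert hqA, susp_inter hn hq, fp_cone hpA hp]
  ring

/-- the vertices with the positions in `P` -/
def CS (w : ℤ → Bool → V) (P : Finset ℤ) : Set V := {x | ∃ k ∈ P, ∃ δ, x = w k δ}

theorem CS_insert (w : ℤ → Bool → V) (P : Finset ℤ) (k : ℤ) (B : Set V) :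
    CS w (insert k P) ∪ B = insert (w k true) (insert (w k false) (CS w P ∪ B)) := by
  ext x
  simp only [CS, Set.mem_union, Set.mem_setOf_eq, Set.mem_insert_iff, Finset.mem_insert]
  constructor
  · rintro (⟨j, rfl | hj, δ, rfl⟩ | h)
    · cases δ
      · exact Or.inr (Or.inl rfl)
      · exact Or.inl rfl
    · exact Or.inr (Or.inr (Or.inl ⟨j, hj, δ, rfl⟩))
    · exact Or.inr (Or.inr (Or.inr h))
  · rintro (rfl | rfl | ⟨j, hj, δ, rfl⟩ | h)
    · exact Or.inl ⟨k, Or.inl rfl, true, rfl⟩
    · exact Or.inl ⟨k, Or.inl rfl, false, rfl⟩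
    · exact Or.inl ⟨j, Or.inr hj, δ, rfl⟩
    · exact Or.inr h

/-- the positions of `P` are pairs of antipodal vertices, joined to everything else -/
structure Pairs (G : SimpleGraph V) (w : ℤ → Bool → V) (P : Finset ℤ) (B : Set V) : Prop where
  adj : ∀ k ∈ P, ∀ k' ∈ P, k ≠ k' → ∀ δ δ', G.Adj (w k δ) (w k' δ')
  nadj : ∀ k ∈ P, ¬ G.Adj (w k false) (w k true)
  ne : ∀ k ∈ P, w k false ≠ w k true
  base : ∀ k ∈ P, ∀ δ, ∀ x ∈ B, G.Adj (w k δ) x

theorem Pairs.mono {w : ℤ → Bool → V} {P P' : Finset ℤ} {B : Set V} (h : Pairs G w P B)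
    (hP : P' ⊆ P) : Pairs G w P' B :=
  ⟨fun k hk k' hk' => h.adj k (hP hk) k' (hP hk'), fun k hk => h.nadj k (hP hk),
    fun k hk => h.ne k (hP hk), fun k hk => h.base k (hP hk)⟩

theorem Pairs.step {w : ℤ → Bool → V} {P : Finset ℤ} {k : ℤ} (hk : k ∉ P) {B : Set V}
    (h : Pairs G w (insert k P) B) (δ : Bool) : ∀ u ∈ CS w P ∪ B, G.Adj (w k δ) u := by
  rintro u (⟨j, hj, δ', rfl⟩ | hu)
  · exact h.adj k (Finset.mem_insert_self _ _) j (Finset.mem_insert_of_mem hj)
      (fun h' => hk (h' ▸ hj)) δ δ'
  · exact h.base k (Finset.mem_insert_self _ _) δ u hu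

theorem cross_betti {w : ℤ → Bool → V} {B : Set V} {b : ℕ}
    (hB : ∀ i, betti F G B i = if i = b then 1 else 0) (P : Finset ℤ) :
    Pairs G w P B → ∀ i, betti F G (CS w P ∪ B) i = if i = b + P.card then 1 else 0 := by
  classical
  induction P using Finset.induction_on with
  | empty =>
    intro _ i
    have : CS w ∅ ∪ B = B := by
      ext x
      simp [CS]
    rw [this, hB, Finset.card_empty, Nat.add_zero]
  | insert k P hk ih =>
    intro h i
    rw [CS_insert]
    obtain ⟨h1, h2⟩ := susp_betti (F := F) (h.ne k (Finset.mem_insert_self _ _))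
      (h.nadj k (Finset.mem_insert_self _ _)) (h.step hk false) (h.step hk true)
    rw [Finset.card_insert_of_notMem hk]
    cases i with
    | zero => rw [h1, if_neg (by omega)]
    | succ i =>
      rw [h2, ih (h.mono (Finset.subset_insert _ _)) i]
      have : (i = b + P.card) ↔ (i + 1 = b + (P.card + 1)) := by omega
      simp only [this]

theorem cross_fp {w : ℤ → Bool → V} {B : Set V} (P : Finset ℤ) :
    Pairs G w P B → fp G (CS w P ∪ B) = (1 + 2 * X) ^ P.card * fp G B := by
  classical
  induction P using Finset.induction_on with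
  | empty =>
    intro _
    have : CS w ∅ ∪ B = B := by
      ext x
      simp [CS]
    rw [this, Finset.card_empty, pow_zero, one_mul]
  | insert k P hk ih =>
    intro h
    rw [CS_insert, susp_fp (h.ne k (Finset.mem_insert_self _ _))
      (h.nadj k (Finset.mem_insert_self _ _)) (h.step hk false) (h.step hk true),
      ih (h.mono (Finset.subset_insert _ _)), Finset.card_insert_of_notMem hk, pow_succ]
    ring

theorem CC_empty_succ (i : ℕ) : CC F G ∅ (i + 1) = ⊥ := by
  rw [eq_bot_iff]
  intro c hc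
  rw [Submodule.mem_bot]
  funext T
  refine hc T ?_
  rintro ⟨_, h2, h3⟩
  have : T = ∅ := by
    rw [← Finset.coe_eq_empty]
    exact Set.subset_empty_iff.1 h2
  rw [this, Finset.card_empty] at h3
  omega

theorem CC_empty_zero : CC F G ∅ 0 = Submodule.span F {(Pi.single ∅ 1 : Finset V → F)} := by
  classical
  ext c
  rw [Submodule.mem_span_singleton, mem_CC]
  constructor
  · intro h
    refine ⟨c ∅, ?_⟩
    funext T
    rw [Pi.smul_apply, smul_eq_mul]
    by_cases hT : T = ∅
    · rw [hT, Pi.single_eq_same, mul_one]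
    · rw [Pi.single_eq_of_ne hT, mul_zero, h T]
      rintro ⟨_, _, h3⟩
      exact hT (Finset.card_eq_zero.1 h3)
  · rintro ⟨a, rfl⟩ T hT
    have hT0 : T ≠ ∅ := by
      rintro rfl
      apply hT
      simp
    rw [Pi.smul_apply, Pi.single_eq_of_ne hT0, smul_zero]

theorem betti_empty (i : ℕ) : betti F G ∅ i = if i = 0 then 1 else 0 := by
  classical
  cases i with
  | succ i =>
    rw [if_neg (by omega)]
    unfold Pool.Agent.R580.CD.betti
    have : Zy F G ∅ (i + 1) = ⊥ := by
      unfold Zy
      rw [CC_empty_succ, bot_inf_eq]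
    rw [this, finrank_bot]
    exact Nat.zero_sub _
  | zero =>
    rw [if_pos rfl]
    unfold Pool.Agent.R580.CD.betti
    have h1 : By F G ∅ 0 = ⊥ := by
      unfold By
      rw [CC_empty_succ, Submodule.map_bot]
    rw [h1, ← finrank_zero, CC_empty_zero, finrank_bot, finrank_span_singleton]
    intro h
    have := congrFun h ∅
    rw [Pi.single_eq_same, Pi.zero_apply] at this
    exact one_ne_zero this

theorem fp_empty : fp G ∅ = 1 := by
  classical
  unfold fp
  rw [Finset.sum_eq_single ∅]
  · simp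
  · intro T _ hT
    rw [if_neg]
    rintro ⟨_, h⟩
    apply hT
    rw [← Finset.coe_eq_empty]
    exact Set.subset_empty_iff.1 h
  · intro h
    exact absurd (Finset.mem_univ _) h

end

end Pool.Agent.K4H87.FM
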