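import Pool.Agent.K4H87.FM.Copies

set_option autoImplicit false

/-!
# The ratios
-/

namespace Pool.Agent.K4H87.FM

open Finset Pool.Agent.R580.CD Polynomial

/-- The clique complex of `G` is a flag homology manifold of dimension `d - 1`: over every field, the
link of every nonempty simplex `T` has the homology of the sphere of dimension `d - 1 - |T|`. -/
def FlagManifold {V : Type} [Fintype V] [LinearOrder V] (d : ℕ) (G : SimpleGraph V) : Prop :=
  ∀ (F : Type) [Field F] (T : Finset V), G.IsClique (T : Set V) → T.Nonempty → ∀ i : ℕ,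
    betti F G (lnk G T) i = if i + T.card = d then 1 else 0

/-- `a` is a balanced partition of `n`. -/
def Balanced {r : ℕ} (n : ℕ) (a : Fin r → ℕ) : Prop := (∑ j, a j) = n ∧ ∀ j k, a j ≤ a k + 1

theorem hnum_of_gamma {r : ℕ} {f γ : ℕ → ℤ} (h : IsGamma r f γ) {m : ℕ} (hm : m ≤ r) :
    hnum (2 * r) f m = ∑ i ∈ range (m + 1), γ i * ((2 * r - 2 * i).choose (m - i) : ℤ) := by
  have h1 : (∑ i ∈ range (2 * r + 1), C (hnum (2 * r) f i) * X ^ i).coeff m =
      (∑ i ∈ range (r + 1), C (γ i) * X ^ i * (1 + X) ^ (2 * r - 2 * i)).coeff m :=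
    congrArg (fun p : ℤ[X] => p.coeff m) h
  rw [sum_hnum, coeff_HH _ _ (by omega), Polynomial.finsetSum_coeff] at h1
  rw [h1]
  symm
  have h2 : range (m + 1) ⊆ range (r + 1) := by
    intro x hx
    rw [Finset.mem_range] at hx ⊢
    omega
  rw [← Finset.sum_subset h2]
  · refine Finset.sum_congr rfl fun i hi => ?_
    rw [Finset.mem_range] at hi
    rw [mul_assoc, Polynomial.coeff_C_mul, Polynomial.coeff_X_pow_mul', if_pos (by omega),
      Polynomial.coeff_one_add_X_pow]
  · intro i _ hi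
    rw [Finset.mem_range] at hi
    rw [mul_assoc, Polynomial.coeff_C_mul, Polynomial.coeff_X_pow_mul', if_neg (by omega), mul_zero]

theorem choose_two (n : ℕ) : (n.choose 2 : ℚ) = n * (n - 1) / 2 := Nat.cast_choose_two ℚ n

theorem choose_three (n : ℕ) : (n.choose 3 : ℚ) = n * (n - 1) * (n - 2) / 6 := by
  induction n with
  | zero => simp
  | succ n ih =>
    rw [Nat.choose_succ_succ, Nat.cast_add, ih, choose_two]
    push_cast
    ring

theorem hnum_one {r : ℕ} (hr : 3 ≤ r) {f γ : ℕ → ℤ} (h : IsGamma r f γ) :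
    (hnum (2 * r) f 1 : ℚ) = 2 * r * γ 0 + γ 1 := by
  rw [hnum_of_gamma h (by omega), Finset.sum_range_succ, Finset.sum_range_one]
  push_cast
  simp
  ring

theorem hnum_two {r : ℕ} (hr : 3 ≤ r) {f γ : ℕ → ℤ} (h : IsGamma r f γ) :
    (hnum (2 * r) f 2 : ℚ) = r * (2 * r - 1) * γ 0 + (2 * r - 2) * γ 1 + γ 2 := by
  obtain ⟨s, rfl⟩ : ∃ s, r = s + 3 := ⟨r - 3, by omega⟩
  rw [hnum_of_gamma h (by omega), Finset.sum_range_succ, Finset.sum_range_succ,
    Finset.sum_range_one]
  rw [show 2 * (s + 3) - 2 * 0 = 2 * s + 6 by omega, show 2 * (s + 3) - 2 * 1 = 2 * s + 4 by omega,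
    show 2 * (s + 3) - 2 * 2 = 2 * s + 2 by omega, Nat.sub_zero, show 2 - 1 = 1 from rfl,
    Nat.sub_self, Nat.choose_one_right, Nat.choose_zero_right]
  push_cast
  rw [choose_two]
  push_cast
  ring

theorem hnum_three {r : ℕ} (hr : 3 ≤ r) {f γ : ℕ → ℤ} (h : IsGamma r f γ) :
    (hnum (2 * r) f 3 : ℚ) = r * (2 * r - 1) * (2 * r - 2) / 3 * γ 0 +
      (r - 1) * (2 * r - 3) * γ 1 + (2 * r - 4) * γ 2 + γ 3 := by
  obtain ⟨s, rfl⟩ : ∃ s, r = s + 3 := ⟨r - 3, by omega⟩
  rw [hnum_of_gamma h (by omega), Finset.sum_range_succ, Finset.sum_range_succ,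
    Finset.sum_range_succ, Finset.sum_range_one]
  rw [show 2 * (s + 3) - 2 * 0 = 2 * s + 6 by omega, show 2 * (s + 3) - 2 * 1 = 2 * s + 4 by omega,
    show 2 * (s + 3) - 2 * 2 = 2 * s + 2 by omega, show 2 * (s + 3) - 2 * 3 = 2 * s by omega,
    Nat.sub_zero, show 3 - 1 = 2 from rfl, show 3 - 2 = 1 from rfl,
    Nat.sub_self, Nat.choose_one_right, Nat.choose_zero_right]
  push_cast
  rw [choose_two, choose_three]
  push_cast
  ring

theorem Phi_single (r i : ℕ) (hi : i ≤ r) :
    Phi (2 * r) (fun j => if j = i then 1 else 0) = (X + X ^ 2) ^ i * (1 + 2 * X) ^ (2 * r - 2 * i) := by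
  unfold Phi
  rw [Finset.sum_eq_single i]
  · simp
  · intro j _ hj
    simp [hj]
  · intro h
    exact absurd (Finset.mem_range.2 (by omega)) h

theorem Phi_one' (r : ℕ) : Phi (2 * r) (fun i => (-4) ^ i * (r.choose i : ℤ)) = 1 := by
  unfold Phi
  rw [show 2 * r / 2 + 1 = r + 1 by omega]
  exact (one_eq_sum r).symm

/-- `γ` of the disjoint union of `N` cross-polytopes -/
def gD (r N : ℕ) (i : ℕ) : ℤ :=
  (N : ℤ) * (if i = 0 then 1 else 0) + (1 - (N : ℤ)) * ((-4) ^ i * (r.choose i : ℤ))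

theorem gD_Phi (r N : ℕ) :
    Phi (2 * r) (gD r N) = 1 + (N : ℤ[X]) * ((1 + 2 * X) ^ (2 * r) - 1) := by
  unfold gD
  rw [Phi_add, Phi_smul, Phi_smul, Phi_single r 0 (by omega), Phi_one']
  simp
  ring

/-- `γ` of the bundle -/
def gB (r N : ℕ) (i : ℕ) : ℤ :=
  ((-4) ^ i * (r.choose i : ℤ)) + (2 * N : ℤ) * (if i = 1 then 1 else 0)

theorem gB_Phi (r N : ℕ) (hr : 1 ≤ r) : Phi (2 * r) (gB r N) =
    1 + ((2 * N : ℕ) : ℤ[X]) * ((X + X ^ 2) * (1 + 2 * X) ^ (2 * r - 1 - 1)) := by
  unfold gB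
  rw [Phi_add, Phi_smul, Phi_single r 1 hr, Phi_one', show 2 * r - 1 - 1 = 2 * r - 2 * 1 by omega]
  simp

theorem balanced_eq {r m : ℕ} {a : Fin r → ℕ} (h : Balanced (m * r) a) (j : Fin r) : a j = m := by
  obtain ⟨h1, h2⟩ := h
  by_contra hne
  rcases Nat.lt_or_gt_of_ne hne with hlt | hgt
  · have h3 : ∑ k, a k < ∑ _k : Fin r, m := by
      apply Finset.sum_lt_sum
      · intro k _
        have := h2 k j
        omega
      · exact ⟨j, mem_univ _, hlt⟩
    rw [h1, Finset.sum_const, Finset.card_univ, Fintype.card_fin, smul_eq_mul, mul_comm] at h3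
    exact lt_irrefl _ h3
  · have h3 : ∑ _k : Fin r, m < ∑ k, a k := by
      apply Finset.sum_lt_sum
      · intro k _
        have := h2 j k
        omega
      · exact ⟨j, mem_univ _, hgt⟩
    rw [h1, Finset.sum_const, Finset.card_univ, Fintype.card_fin, smul_eq_mul, mul_comm] at h3
    exact lt_irrefl _ h3

theorem balanced_ge {r n m : ℕ} {a : Fin r → ℕ} (h : Balanced n a) (hn : m * r ≤ n) (j : Fin r) :
    m ≤ a j := by
  obtain ⟨h1, h2⟩ := h
  by_contra hlt
  have hlt : a j < m := by omega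
  have h3 : ∑ k, a k < ∑ _k : Fin r, m := by
    apply Finset.sum_lt_sum
    · intro k _
      have := h2 k j
      omega
    · exact ⟨j, mem_univ _, hlt⟩
  rw [h1, Finset.sum_const, Finset.card_univ, Fintype.card_fin, smul_eq_mul, mul_comm] at h3
  omega

theorem disjoint_case (r N : ℕ) (hr : 3 ≤ r) (hN : r ≤ N) :
    ∃ (V : Type) (_ : Fintype V) (_ : LinearOrder V) (G : SimpleGraph V),
      Fintype.card V = 4 * r * N ∧ FlagManifold (2 * r) G ∧
      ∀ a : Fin r → ℕ, Balanced (Fintype.card V) a →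
        (hnum (2 * r) (faces G) 2 : ℚ) / hnum (2 * r) (faces (joinCycles a)) 2 <
          (hnum (2 * r) (faces G) 3 : ℚ) / hnum (2 * r) (faces (joinCycles a)) 3 ∧
        (gnum (2 * r) (faces G) 2 : ℚ) / gnum (2 * r) (faces (joinCycles a)) 2 <
          (gnum (2 * r) (faces G) 3 : ℚ) / gnum (2 * r) (faces (joinCycles a)) 3 ∧
        ∃ γ δ : ℕ → ℤ, IsGamma r (faces G) γ ∧ IsGamma r (faces (joinCycles a)) δ ∧
          (γ 2 : ℚ) / δ 2 < (γ 3 : ℚ) / δ 3 := by
  obtain ⟨V, i1, i2, G, hG, hc, hf⟩ := exists_cross r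
  have hcard : Fintype.card (Fin N ×ₗ V) = 4 * r * N := by
    show Fintype.card (Fin N × V) = _
    rw [Fintype.card_prod, hc, Fintype.card_fin]
    ring
  refine ⟨Fin N ×ₗ V, inferInstance, inferInstance, dj N G, hcard,
    fun F _ T hT hne i => dj_link (hG F) T hT hne i, ?_⟩
  intro a ha
  rw [hcard, show 4 * r * N = (4 * N) * r by ring] at ha
  have haj : ∀ j, a j = 4 * N := balanced_eq ha
  have hγ : IsGamma r (faces (dj N G)) (gD r N) := by
    apply isGamma_of_Phi
    intro k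
    rw [gD_Phi, ← hf, ← dj_fp, coeff_fp]
  have hδ : IsGamma r (faces (joinCycles a)) (fun i => (r.choose i : ℤ) * (4 * N - 4) ^ i) := by
    have h1 := isGamma_jc a (fun j => by rw [haj j]; omega)
    have h2 : (esy fun j => (a j : ℤ) - 4) = fun i => (r.choose i : ℤ) * (4 * N - 4) ^ i := by
      funext i
      have h3 : (fun j => (a j : ℤ) - 4) = fun _ => (4 * N - 4 : ℤ) := by
        funext j
        rw [haj j]
        push_cast
        ring
      rw [h3, esy_const]
    rw [h2] at h1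
    exact h1
  have c2 := choose_two r
  have c3 := choose_three r
  have hRq : (3 : ℚ) ≤ r := by exact_mod_cast hr
  have hNq : (r : ℚ) ≤ N := by exact_mod_cast hN
  have g0 : (gD r N 0 : ℚ) = 1 := by
    unfold gD
    simp
  have g1 : (gD r N 1 : ℚ) = 4 * r * (N - 1) := by
    unfold gD
    simp
    ring
  have g2 : (gD r N 2 : ℚ) = - 8 * r * (r - 1) * (N - 1) := by
    unfold gD
    push_cast
    rw [c2]
    simp
    ring
  have g3 : (gD r N 3 : ℚ) = 32 * r * (r - 1) * (r - 2) * (N - 1) / 3 := by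
    unfold gD
    push_cast
    rw [c3]
    simp
    ring
  -- the numbers of the join
  set u : ℚ := 4 * N - 2 with hu
  have hu10 : 4 * (r : ℚ) - 2 ≤ u := by rw [hu]; linarith
  have H1 := hnum_one hr hγ
  have H2 := hnum_two hr hγ
  have H3 := hnum_three hr hγ
  have J1 := hnum_one hr hδ
  have J2 := hnum_two hr hδ
  have J3 := hnum_three hr hδ
  rw [g0, g1] at H1
  rw [g0, g1, g2] at H2
  rw [g0, g1, g2, g3] at H3
  push_cast at J1 J2 J3
  rw [Nat.choose_one_right] at J1
  rw [Nat.choose_one_right, c2] at J2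
  rw [Nat.choose_one_right, c2, c3] at J3
  simp only [Nat.choose_zero_right, Nat.cast_one, pow_zero, one_mul, mul_one, pow_one] at J1 J2 J3
  have J1' : (hnum (2 * r) (faces (joinCycles a)) 1 : ℚ) = r * u := by
    rw [J1, hu]
    ring
  have J2' : (hnum (2 * r) (faces (joinCycles a)) 2 : ℚ) = r + r * (r - 1) / 2 * u ^ 2 := by
    rw [J2, hu]
    ring
  have J3' : (hnum (2 * r) (faces (joinCycles a)) 3 : ℚ) =
      r * (r - 1) * (r - 2) / 6 * u ^ 3 + r * (r - 1) * u := by
    rw [J3, hu]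
    ring
  have H1' : (hnum (2 * r) (faces (dj N G)) 1 : ℚ) = r * u := by
    rw [H1, hu]
    ring
  have H2' : (hnum (2 * r) (faces (dj N G)) 2 : ℚ) = r * (2 * r - 1) := by
    rw [H2]
    ring
  have H3' : (hnum (2 * r) (faces (dj N G)) 3 : ℚ) = u / 2 * (2 / 3 * r * (2 * r - 1) * (r - 1)) := by
    rw [H3, hu]
    ring
  set R : ℚ := (r : ℚ) with hR
  have hRpos : 0 < R := by linarith
  have hupos : 10 ≤ u := by linarith
  have j2pos : 0 < R + R * (R - 1) / 2 * u ^ 2 := by
    have : 0 ≤ R * (R - 1) / 2 * u ^ 2 := by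
      have : 0 ≤ R * (R - 1) := mul_nonneg hRpos.le (by linarith)
      positivity
    linarith
  have j3pos : 0 < R * (R - 1) * (R - 2) / 6 * u ^ 3 + R * (R - 1) * u := by
    have h1 : 0 ≤ R * (R - 1) * (R - 2) / 6 * u ^ 3 := by
      have : 0 ≤ R * (R - 1) * (R - 2) :=
        mul_nonneg (mul_nonneg hRpos.le (by linarith)) (by linarith)
      positivity
    have h2 : 0 < R * (R - 1) * u := mul_pos (mul_pos hRpos (by linarith)) (by linarith)
    linarith
  refine ⟨?_, ?_, gD r N, _, hγ, hδ, ?_⟩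
  · rw [H2', H3', J2', J3', div_lt_div_iff₀ j2pos j3pos]
    have hkey : u / 2 * (2 / 3 * R * (2 * R - 1) * (R - 1)) * (R + R * (R - 1) / 2 * u ^ 2) -
        R * (2 * R - 1) * (R * (R - 1) * (R - 2) / 6 * u ^ 3 + R * (R - 1) * u) =
        R * (2 * R - 1) * u * (R * (R - 1) * (u ^ 2 - 4) / 6) := by
      ring
    have hp : 0 < R * (2 * R - 1) * u * (R * (R - 1) * (u ^ 2 - 4) / 6) := by
      have h1 : 0 < u ^ 2 - 4 := by nlinarith
      have h2 : 0 < 2 * R - 1 := by linarith
      have h3 : 0 < R - 1 := by linarith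
      have h4 : 0 < u := by linarith
      positivity
    linarith
  · have G2 : (gnum (2 * r) (faces (dj N G)) 2 : ℚ) = R * (2 * R - 1) - R * u := by
      unfold gnum
      push_cast
      rw [H2', H1']
    have G3 : (gnum (2 * r) (faces (dj N G)) 3 : ℚ) =
        u / 2 * (2 / 3 * R * (2 * R - 1) * (R - 1)) - R * (2 * R - 1) := by
      unfold gnum
      push_cast
      rw [H3', H2']
    have K2 : (gnum (2 * r) (faces (joinCycles a)) 2 : ℚ) = R + R * (R - 1) / 2 * u ^ 2 - R * u := by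
      unfold gnum
      push_cast
      rw [J2', J1']
    have K3 : (gnum (2 * r) (faces (joinCycles a)) 3 : ℚ) =
        R * (R - 1) * (R - 2) / 6 * u ^ 3 + R * (R - 1) * u - (R + R * (R - 1) / 2 * u ^ 2) := by
      unfold gnum
      push_cast
      rw [J3', J2']
    rw [G2, G3, K2, K3]
    have n1 : R * (2 * R - 1) - R * u < 0 := by
      have : R * (2 * R - 1) - R * u = - (R * (u - (2 * R - 1))) := by ring
      rw [this, neg_lt_zero]
      exact mul_pos hRpos (by linarith)
    have n2 : 0 < u / 2 * (2 / 3 * R * (2 * R - 1) * (R - 1)) - R * (2 * R - 1) := by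
      have : u / 2 * (2 / 3 * R * (2 * R - 1) * (R - 1)) - R * (2 * R - 1) =
          R * (2 * R - 1) * (u * (R - 1) / 3 - 1) := by ring
      rw [this]
      have h1 : 0 < u * (R - 1) / 3 - 1 := by nlinarith
      have h2 : 0 < 2 * R - 1 := by linarith
      positivity
    have n3 : 0 < R + R * (R - 1) / 2 * u ^ 2 - R * u := by
      have : R + R * (R - 1) / 2 * u ^ 2 - R * u = R * (1 + u * ((R - 1) * u / 2 - 1)) := by ring
      rw [this]
      have h1 : 0 < (R - 1) * u / 2 - 1 := by nlinarith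
      have h2 : 0 < u := by linarith
      positivity
    have n4 : 0 < R * (R - 1) * (R - 2) / 6 * u ^ 3 + R * (R - 1) * u -
        (R + R * (R - 1) / 2 * u ^ 2) := by
      have : R * (R - 1) * (R - 2) / 6 * u ^ 3 + R * (R - 1) * u - (R + R * (R - 1) / 2 * u ^ 2) =
          R * (R - 1) * u ^ 2 * ((R - 2) / 6 * u - 1 / 2) + R * ((R - 1) * u - 1) := by ring
      rw [this]
      have h1 : 0 < (R - 2) / 6 * u - 1 / 2 := by nlinarith
      have h2 : 0 < (R - 1) * u - 1 := by nlinarith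
      have h3 : 0 < R - 1 := by linarith
      have h4 : 0 < u := by linarith
      positivity
    exact (div_neg_of_neg_of_pos n1 n3).trans (div_pos n2 n4)
  · rw [g2, g3]
    have hb : (0 : ℚ) < 4 * N - 4 := by linarith
    have d2 : (0 : ℚ) < (((r.choose 2 : ℤ) * (4 * N - 4) ^ 2 : ℤ) : ℚ) := by
      push_cast
      rw [c2]
      have : 0 < R - 1 := by linarith
      positivity
    have d3 : (0 : ℚ) < (((r.choose 3 : ℤ) * (4 * N - 4) ^ 3 : ℤ) : ℚ) := by
      push_cast
      rw [c3]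
      have : 0 < R - 1 := by linarith
      have : 0 < R - 2 := by linarith
      positivity
    have e2 : -8 * R * (R - 1) * (N - 1) < 0 := by
      have : 0 < 8 * R * (R - 1) * ((N : ℚ) - 1) :=
        mul_pos (mul_pos (by linarith) (by linarith)) (by linarith)
      linarith
    have e3 : 0 < 32 * R * (R - 1) * (R - 2) * ((N : ℚ) - 1) / 3 := by
      have h1 : 0 < R - 1 := by linarith
      have h2 : 0 < R - 2 := by linarith
      have h3 : 0 < (N : ℚ) - 1 := by linarith
      positivity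
    exact (div_neg_of_neg_of_pos e2 d2).trans (div_pos e3 d3)

theorem connected_case (r N : ℕ) (hr : 4 ≤ r) (hN : 6 * r ≤ N) :
    ∃ (V : Type) (_ : Fintype V) (_ : LinearOrder V) (G : SimpleGraph V),
      Fintype.card V = 2 * N ∧ FlagManifold (2 * r) G ∧ G.Connected ∧
      ∀ a : Fin r → ℕ, Balanced (Fintype.card V) a →
        ∃ γ δ : ℕ → ℤ, IsGamma r (faces G) γ ∧ IsGamma r (faces (joinCycles a)) δ ∧
          (γ 3 : ℚ) / δ 3 < 0 ∧ 0 < (γ 4 : ℚ) / δ 4 := by
  haveI : NeZero N := ⟨by omega⟩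
  refine ⟨TV N, inferInstance, inferInstance, tg N (2 * r - 1), card_TV, ?_,
    tg_connected (by omega) (by omega), ?_⟩
  · intro F _ T hT hne i
    rw [tg_link (by omega) (by omega) T hT hne i, show 2 * r - 1 + 1 = 2 * r by omega]
  intro a ha
  rw [card_TV] at ha
  have haj : ∀ j, 12 ≤ a j := balanced_ge ha (by omega)
  have hγ : IsGamma r (faces (tg N (2 * r - 1))) (gB r N) := by
    apply isGamma_of_Phi
    intro k
    rw [gB_Phi r N (by omega), ← tg_fp (N := N) (D := 2 * r - 1) (by omega) (by omega), coeff_fp]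
  have hδ := isGamma_jc a (fun j => by have := haj j; omega)
  have hpos : ∀ j, 0 < (a j : ℤ) - 4 := fun j => by
    have := haj j
    omega
  refine ⟨gB r N, _, hγ, hδ, ?_, ?_⟩
  · apply div_neg_of_neg_of_pos
    · have h1 : gB r N 3 < 0 := by
        unfold gB
        have : 0 < r.choose 3 := Nat.choose_pos (by omega)
        simp
        omega
      exact_mod_cast h1
    · exact_mod_cast esy_pos hpos (show 3 ≤ r by omega)
  · apply div_pos
    · have h1 : 0 < gB r N 4 := by
        unfold gB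
        have : 0 < r.choose 4 := Nat.choose_pos (by omega)
        simp
        omega
      exact_mod_cast h1
    · exact_mod_cast esy_pos hpos (show 4 ≤ r by omega)

end Pool.Agent.K4H87.FM
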