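import Pool.Agent.K4H87.FM.Tube

set_option autoImplicit false
set_option linter.unusedSectionVars false

/-!
# A flag triangulation of a sphere bundle over the circle
-/

namespace Pool.Agent.K4H87.FM

open Finset Pool.Agent.R580.CD
open Polynomial (X)

/-- positions on the circle, with signs -/
def TV (N : ℕ) : Type := ZMod N × Bool

instance (N : ℕ) [NeZero N] : Fintype (TV N) := inferInstanceAs (Fintype (ZMod N × Bool))

noncomputable instance (N : ℕ) [NeZero N] : LinearOrder (TV N) :=
  LinearOrder.lift' (fun x : TV N => (toLex (ZMod.val x.1, x.2) : ℕ ×ₗ Bool)) (by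
    rintro ⟨a, b⟩ ⟨a', b'⟩ h
    have h1 := toLex.injective h
    have h2 : ZMod.val a = ZMod.val a' := congrArg Prod.fst h1
    have h3 : b = b' := congrArg Prod.snd h1
    exact Prod.ext (ZMod.val_injective N h2) h3)

section

variable {N : ℕ} [NeZero N]

theorem card_TV : Fintype.card (TV N) = 2 * N := by
  show Fintype.card (ZMod N × Bool) = 2 * N
  rw [Fintype.card_prod, ZMod.card, Fintype.card_bool, mul_comm]

/-- the vertex at the position `k` with the sign `δ` -/
def ph (k : ℤ) (δ : Bool) : TV N := ((k : ZMod N), δ)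

/-- the graph -/
def tg (N D : ℕ) : SimpleGraph (TV N) where
  Adj x y := x ≠ y ∧ ∃ k : ℤ, k ≠ 0 ∧ (k : ZMod N) = y.1 - x.1 ∧
    (|k| < D ∨ (|k| = D ∧ x.2 = y.2))
  symm := ⟨by
    rintro x y ⟨h1, k, h0, h2, h3⟩
    refine ⟨h1.symm, -k, by omega, ?_, ?_⟩
    · push_cast
      rw [h2]
      ring
    · rw [abs_neg]
      rcases h3 with h3 | ⟨h3, h4⟩
      · exact Or.inl h3
      · exact Or.inr ⟨h3, h4.symm⟩⟩
  loopless := ⟨fun x h => h.1 rfl⟩

theorem ph_inj {k k' : ℤ} {δ δ' : Bool} (h : |k - k'| < N)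
    (h2 : (ph k δ : TV N) = ph k' δ') : k = k' ∧ δ = δ' := by
  have h3 : (k : ZMod N) = (k' : ZMod N) := congrArg Prod.fst h2
  have h4 : δ = δ' := congrArg Prod.snd h2
  refine ⟨?_, h4⟩
  rw [ZMod.intCast_eq_intCast_iff_dvd_sub] at h3
  have := Int.eq_zero_of_abs_lt_dvd h3 (by rwa [abs_sub_comm])
  omega

theorem exists_ph (x : TV N) : ∃ k : ℤ, x = ph k x.2 := by
  refine ⟨(ZMod.val x.1 : ℤ), ?_⟩
  unfold ph
  refine Prod.ext ?_ rfl
  show x.1 = (((ZMod.val x.1 : ℕ) : ℤ) : ZMod N)
  rw [Int.cast_natCast, ZMod.natCast_zmod_val]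

theorem adj_ph {D : ℕ} (hN : 3 * D < N) {k k' : ℤ} {δ δ' : Bool} (h : |k - k'| ≤ 2 * D) :
    (tg N D).Adj (ph k δ) (ph k' δ') ↔ k ≠ k' ∧ (|k - k'| < D ∨ (|k - k'| = D ∧ δ = δ')) := by
  constructor
  · rintro ⟨h1, j, h0, h2, h3⟩
    have h4 : (j : ZMod N) = ((k' - k : ℤ) : ZMod N) := by
      rw [h2]
      push_cast
      rfl
    rw [ZMod.intCast_eq_intCast_iff_dvd_sub] at h4
    have hj : |j| ≤ D := by
      rcases h3 with h3 | h3
      · exact h3.le
      · exact h3.1.le
    have h5 := Int.eq_zero_of_abs_lt_dvd h4 (by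
      rw [abs_lt]
      rw [abs_le] at h hj
      constructor <;> push_cast <;> omega)
    have h6 : j = -(k - k') := by omega
    rw [h6, abs_neg] at h3
    exact ⟨by omega, h3⟩
  · rintro ⟨h1, h2⟩
    refine ⟨fun h3 => h1 (ph_inj (by omega) h3).1, -(k - k'), by omega, ?_, ?_⟩
    · push_cast
      show _ = (k' : ZMod N) - (k : ZMod N)
      ring
    · rw [abs_neg]
      exact h2

theorem nbr_ph {D : ℕ} {a : ℤ} {ε : Bool} {y : TV N} (h : (tg N D).Adj (ph a ε) y) :
    ∃ k : ℤ, |k - a| ≤ D ∧ y = ph k y.2 := by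
  obtain ⟨_, j, _, h2, h3⟩ := h
  refine ⟨a + j, ?_, ?_⟩
  · rw [add_sub_cancel_left]
    rcases h3 with h3 | h3
    · exact h3.le
    · exact h3.1.le
  · unfold ph
    refine Prod.ext ?_ rfl
    show y.1 = ((a + j : ℤ) : ZMod N)
    rw [Int.cast_add, h2]
    show y.1 = (a : ZMod N) + (y.1 - (a : ZMod N))
    ring

/-- the enumeration of the link of the positions `a ≤ c` -/
def wf (a c : ℤ) (j : ℤ) (δ : Bool) : TV N := ph (if j < 0 then a + j else c + j) δ

theorem wf_TL {D s : ℕ} (hN : 3 * D < N) {a c : ℤ} (hac : a ≤ c) (hs : (s : ℤ) = D - (c - a)) :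
    TL (tg N D) (wf a c) s := by
  refine ⟨fun k k' δ δ' hk hk' h => ?_, fun k k' δ δ' hk hk' h1 h2 => ?_⟩
  · unfold wf at h
    rw [abs_le] at hk hk'
    have h3 := ph_inj (by rw [abs_lt]; split_ifs <;> constructor <;> omega) h
    refine ⟨?_, h3.2⟩
    have h4 := h3.1
    split_ifs at h4 <;> omega
  · rw [abs_le] at h1 h2
    unfold wf
    rw [adj_ph hN (by rw [abs_le]; split_ifs <;> constructor <;> omega)]
    rcases lt_or_gt_of_ne hk with h3 | h3 <;> rcases lt_or_gt_of_ne hk' with h4 | h4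
    · rw [if_pos h3, if_pos h4]
      have h5 : 0 < k * k' := mul_pos_of_neg_of_neg h3 h4
      have h6 : |a + k - (a + k')| < D := by rw [abs_lt]; omega
      constructor
      · rintro ⟨h7, _⟩
        exact ⟨by omega, Or.inl h5⟩
      · rintro ⟨h7, _⟩
        exact ⟨by omega, Or.inl h6⟩
    · rw [if_pos h3, if_neg (by omega)]
      have h5 : ¬ 0 < k * k' := not_lt.2 (mul_nonpos_of_nonpos_of_nonneg h3.le h4.le)
      rw [abs_of_neg (by omega), abs_of_neg (by omega)]
      constructor
      · rintro ⟨h7, h8⟩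
        refine ⟨by omega, Or.inr ?_⟩
        rcases h8 with h8 | h8
        · left; omega
        · right; exact ⟨by omega, h8.2⟩
      · rintro ⟨h7, h8⟩
        refine ⟨by omega, ?_⟩
        rcases h8 with h8 | h8 | h8
        · exact absurd h8 h5
        · left; omega
        · right; exact ⟨by omega, h8.2⟩
    · rw [if_neg (by omega), if_pos h4]
      have h5 : ¬ 0 < k * k' := not_lt.2 (mul_nonpos_of_nonneg_of_nonpos h3.le h4.le)
      rw [abs_of_pos (by omega), abs_of_pos (by omega)]
      constructor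
      · rintro ⟨h7, h8⟩
        refine ⟨by omega, Or.inr ?_⟩
        rcases h8 with h8 | h8
        · left; omega
        · right; exact ⟨by omega, h8.2⟩
      · rintro ⟨h7, h8⟩
        refine ⟨by omega, ?_⟩
        rcases h8 with h8 | h8 | h8
        · exact absurd h8 h5
        · left; omega
        · right; exact ⟨by omega, h8.2⟩
    · rw [if_neg (by omega), if_neg (by omega)]
      have h5 : 0 < k * k' := mul_pos h3 h4
      have h6 : |c + k - (c + k')| < D := by rw [abs_lt]; omega
      constructor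
      · rintro ⟨h7, _⟩
        exact ⟨by omega, Or.inl h5⟩
      · rintro ⟨h7, _⟩
        exact ⟨by omega, Or.inl h6⟩

/-- The points outside of the interval `[a, c]` which are adjacent to everything. -/
theorem mem_UU {D s : ℕ} (h1s : 1 ≤ s) {a c : ℤ} (hac : a ≤ c) (hs : (s : ℤ) = D - (c - a))
    (ε ε' : Bool) (x : TV N) : x ∈ UU (wf a c) s ε ε' ↔ ∃ (k : ℤ) (δ : Bool), x = ph k δ ∧
      c - D ≤ k ∧ k ≤ a + D ∧ (k < a ∨ c < k) ∧ (k = c - D → δ = ε) ∧ (k = a + D → δ = ε') := by
  unfold UU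
  rw [Set.mem_insert_iff, mem_Aj]
  constructor
  · rintro (rfl | ⟨k, δ, h1, h2, rfl⟩ | ⟨k, δ, h1, h2, rfl⟩ | rfl)
    · refine ⟨c + s, ε', ?_, by omega, by omega, by omega, by omega, fun _ => rfl⟩
      unfold wf
      rw [if_neg (by omega)]
    · refine ⟨c + k, δ, ?_, by omega, by omega, by omega, by omega, by omega⟩
      unfold wf
      rw [if_neg (by omega)]
    · refine ⟨a + k, δ, ?_, by omega, by omega, by omega, by omega, by omega⟩
      unfold wf
      rw [if_pos (by omega)]
    · refine ⟨a + -(s : ℤ), ε, ?_, by omega, by omega, by omega, fun _ => rfl, by omega⟩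
      unfold wf
      rw [if_pos (by omega)]
  · rintro ⟨k, δ, rfl, h1, h2, h3 | h3, h4, h5⟩
    · right; right
      by_cases h6 : k = c - D
      · right
        rw [h4 h6]
        unfold wf
        rw [if_pos (by omega)]
        congr 1
        omega
      · left
        refine ⟨k - a, δ, by omega, by omega, ?_⟩
        unfold wf
        rw [if_pos (by omega)]
        congr 1
        omega
    · by_cases h6 : k = a + D
      · left
        rw [h5 h6]
        unfold wf
        rw [if_neg (by omega)]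
        congr 1
        omega
      · right; left
        refine ⟨k - c, δ, by omega, by omega, ?_⟩
        unfold wf
        rw [if_neg (by omega)]
        congr 1
        omega

/-- The link of a nonempty clique. -/
theorem lnk_eq {D : ℕ} (hD : 1 ≤ D) (hN : 3 * D < N) (T : Finset (TV N))
    (hT : (tg N D).IsClique (T : Set (TV N))) (hne : T.Nonempty) :
    ∃ (a c : ℤ) (P : Finset ℤ) (s : ℕ) (B : Set (TV N)),
      lnk (tg N D) T = CS ph P ∪ B ∧ Pairs (tg N D) ph P B ∧ s + P.card + T.card = D + 1 ∧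
      (T.card = 1 → P = ∅) ∧
      ((s = 0 ∧ B = ∅) ∨ (1 ≤ s ∧ TL (tg N D) (wf a c) s ∧ ∃ ε ε', B = UU (wf a c) s ε ε')) := by
  classical
  obtain ⟨y0, hy0⟩ := hne
  obtain ⟨P0, hP0⟩ := exists_ph y0
  have hrep : ∀ y ∈ T, ∃ k : ℤ, |k - P0| ≤ D ∧ y = ph k y.2 := by
    intro y hy
    by_cases h : y = y0
    · refine ⟨P0, by simp, ?_⟩
      rw [h]
      exact hP0
    · have h1 := hT hy0 hy (Ne.symm h)
      rw [hP0] at h1
      exact nbr_ph h1
  choose! pos hpos using hrep
  have hpair : ∀ y ∈ T, ∀ z ∈ T, y ≠ z → pos y ≠ pos z ∧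
      (|pos y - pos z| < D ∨ (|pos y - pos z| = D ∧ y.2 = z.2)) := by
    intro y hy z hz hyz
    have h1 := hT hy hz hyz
    have h2 := (hpos y hy).1
    have h3 := (hpos z hz).1
    have h4 : (tg N D).Adj (ph (pos y) y.2) (ph (pos z) z.2) := by
      rw [← (hpos y hy).2, ← (hpos z hz).2]
      exact h1
    rw [adj_ph hN (by rw [abs_le] at h2 h3 ⊢; omega)] at h4
    exact h4
  obtain ⟨ya, hya, hmin⟩ := Finset.exists_min_image T pos ⟨y0, hy0⟩
  obtain ⟨yc, hyc, hmax⟩ := Finset.exists_max_image T pos ⟨y0, hy0⟩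
  set a := pos ya with ha
  set c := pos yc with hc
  have hac : a ≤ c := hmin yc hyc
  have hacD : c - a ≤ D := by
    by_cases h : ya = yc
    · rw [ha, hc, h]
      simp
    · have h1 := (hpair ya hya yc hyc h).2
      have h2 : |pos ya - pos yc| ≤ D := by
        rcases h1 with h1 | h1
        · exact h1.le
        · exact h1.1.le
      rw [abs_le] at h2
      omega
  have huniq : ∀ y ∈ T, ∀ z ∈ T, pos y = pos z → y = z := by
    intro y hy z hz h
    by_contra hcon
    exact (hpair y hy z hz hcon).1 h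
  obtain ⟨s, hs⟩ : ∃ s : ℕ, (s : ℤ) = D - (c - a) := ⟨((D : ℤ) - (c - a)).toNat, by omega⟩
  set P : Finset ℤ := Icc a c \ T.image pos with hP
  have himg : (T.image pos).card = T.card :=
    Finset.card_image_of_injOn fun y hy z hz h => huniq y hy z hz h
  have hsubI : T.image pos ⊆ Icc a c := by
    intro k hk
    rw [Finset.mem_image] at hk
    obtain ⟨y, hy, rfl⟩ := hk
    rw [Finset.mem_Icc]
    exact ⟨hmin y hy, hmax y hy⟩
  have hcardP : P.card + T.card = (c + 1 - a).toNat := by
    rw [hP, Finset.card_sdiff_of_subset hsubI, himg, Int.card_Icc]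
    have := Finset.card_le_card hsubI
    rw [himg, Int.card_Icc] at this
    omega
  have hPmem : ∀ k, k ∈ P ↔ a ≤ k ∧ k ≤ c ∧ ∀ y ∈ T, pos y ≠ k := by
    intro k
    rw [hP, Finset.mem_sdiff, Finset.mem_Icc, Finset.mem_image]
    constructor
    · rintro ⟨⟨h1, h2⟩, h3⟩
      exact ⟨h1, h2, fun y hy h => h3 ⟨y, hy, h⟩⟩
    · rintro ⟨h1, h2, h3⟩
      exact ⟨⟨h1, h2⟩, fun ⟨y, hy, h⟩ => h3 y hy h⟩
  have hPlt : ∀ k ∈ P, a < k ∧ k < c := by
    intro k hk
    rw [hPmem] at hk
    have h1 := hk.2.2 ya hya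
    have h2 := hk.2.2 yc hyc
    omega
  -- the vertices of the link
  have hlnk : ∀ x : TV N, x ∈ lnk (tg N D) T ↔ ∃ (k : ℤ) (δ : Bool), x = ph k δ ∧
      c - D ≤ k ∧ k ≤ a + D ∧ (∀ y ∈ T, pos y ≠ k) ∧ (k = c - D → δ = yc.2) ∧
      (k = a + D → δ = ya.2) := by
    intro x
    constructor
    · intro hx
      have h1 : (tg N D).Adj (ph a ya.2) x := by
        rw [ha, ← (hpos ya hya).2]
        exact (hx ya hya).symm
      obtain ⟨k, hk, hxk⟩ := nbr_ph h1
      have hall : ∀ y ∈ T, k ≠ pos y ∧ (|k - pos y| < D ∨ (|k - pos y| = D ∧ x.2 = y.2)) := by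
        intro y hy
        have h2 : (tg N D).Adj (ph k x.2) (ph (pos y) y.2) := by
          rw [← hxk, ← (hpos y hy).2]
          exact hx y hy
        have h3 := hmin y hy
        have h4 := hmax y hy
        rwa [adj_ph hN (by rw [abs_le] at hk ⊢; omega)] at h2
      refine ⟨k, x.2, hxk, ?_, ?_, fun y hy h => (hall y hy).1 h.symm, ?_, ?_⟩
      · have h2 := (hall yc hyc).2
        rw [← hc] at h2
        have h3 : |k - c| ≤ D := by
          rcases h2 with h2 | h2
          · exact h2.le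
          · exact h2.1.le
        rw [abs_le] at h3
        omega
      · rw [abs_le] at hk
        omega
      · intro h
        have h2 := (hall yc hyc).2
        rw [← hc] at h2
        rcases h2 with h2 | h2
        · rw [abs_lt] at h2
          omega
        · exact h2.2
      · intro h
        have h2 := (hall ya hya).2
        rw [← ha] at h2
        rcases h2 with h2 | h2
        · rw [abs_lt] at h2
          omega
        · exact h2.2
    · rintro ⟨k, δ, rfl, h1, h2, h3, h4, h5⟩ y hy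
      have h6 := hmin y hy
      have h7 := hmax y hy
      rw [(hpos y hy).2, adj_ph hN (by rw [abs_le]; omega)]
      refine ⟨(h3 y hy).symm, ?_⟩
      have h8 : |k - pos y| ≤ D := by rw [abs_le]; omega
      rcases lt_or_eq_of_le h8 with h9 | h9
      · exact Or.inl h9
      · right
        refine ⟨h9, ?_⟩
        rcases (abs_eq (by omega)).1 h9 with h10 | h10
        · have h11 : pos y = a := by omega
          rw [huniq y hy ya hya h11]
          exact h5 (by omega)
        · have h11 : pos y = c := by omega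
          rw [huniq y hy yc hyc h11]
          exact h4 (by omega)
  have hP1 : T.card = 1 → P = ∅ := by
    intro h1
    rw [Finset.eq_empty_iff_forall_notMem]
    intro k hk
    have h2 := hPlt k hk
    rw [Finset.card_eq_one] at h1
    obtain ⟨z, hz⟩ := h1
    rw [hz, Finset.mem_singleton] at hya hyc
    have h3 : a = c := by rw [ha, hc, hya, hyc]
    omega
  have hpairs : ∀ B : Set (TV N), (∀ x ∈ B, ∃ (k : ℤ) (δ : Bool), x = ph k δ ∧
      c - D ≤ k ∧ k ≤ a + D ∧ (k < a ∨ c < k)) → Pairs (tg N D) ph P B := by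
    intro B hB
    refine ⟨fun k hk k' hk' hne δ δ' => ?_, fun k hk => ?_, fun k hk => ?_, fun k hk δ x hx => ?_⟩
    · have h1 := hPlt k hk
      have h2 := hPlt k' hk'
      rw [adj_ph hN (by rw [abs_le]; omega)]
      exact ⟨hne, Or.inl (by rw [abs_lt]; omega)⟩
    · rw [adj_ph hN (by simp)]
      exact fun h => h.1 rfl
    · intro h
      have := (ph_inj (by simp; exact Nat.pos_of_ne_zero (NeZero.ne N)) h).2
      exact absurd this (by decide)
    · obtain ⟨k', δ', rfl, h1, h2, h3⟩ := hB x hx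
      have h4 := hPlt k hk
      rw [adj_ph hN (by rw [abs_le]; omega)]
      exact ⟨by omega, Or.inl (by rw [abs_lt]; omega)⟩
  rcases Nat.eq_zero_or_pos s with hs0 | hs0
  · refine ⟨a, c, P, s, ∅, ?_, hpairs ∅ (fun x hx => absurd hx (Set.notMem_empty _)), by omega, hP1,
      Or.inl ⟨hs0, rfl⟩⟩
    ext x
    rw [hlnk, Set.union_empty]
    constructor
    · rintro ⟨k, δ, rfl, h1, h2, h3, -, -⟩
      exact ⟨k, (hPmem k).2 ⟨by omega, by omega, h3⟩, δ, rfl⟩
    · rintro ⟨k, hk, δ, rfl⟩
      have h1 := hPlt k hk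
      rw [hPmem] at hk
      exact ⟨k, δ, rfl, by omega, by omega, hk.2.2, by omega, by omega⟩
  · refine ⟨a, c, P, s, UU (wf a c) s yc.2 ya.2, ?_, hpairs _ ?_, by omega, hP1,
      Or.inr ⟨hs0, wf_TL hN hac hs, _, _, rfl⟩⟩
    · ext x
      rw [hlnk, Set.mem_union, mem_UU hs0 hac hs]
      constructor
      · rintro ⟨k, δ, rfl, h1, h2, h3, h4, h5⟩
        by_cases h6 : k < a ∨ c < k
        · exact Or.inr ⟨k, δ, rfl, h1, h2, h6, h4, h5⟩
        · exact Or.inl ⟨k, (hPmem k).2 ⟨by omega, by omega, h3⟩, δ, rfl⟩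
      · rintro (⟨k, hk, δ, rfl⟩ | ⟨k, δ, rfl, h1, h2, h3, h4, h5⟩)
        · have h1 := hPlt k hk
          rw [hPmem] at hk
          exact ⟨k, δ, rfl, by omega, by omega, hk.2.2, by omega, by omega⟩
        · refine ⟨k, δ, rfl, h1, h2, fun y hy h => ?_, h4, h5⟩
          have h6 := hmin y hy
          have h7 := hmax y hy
          omega
    · intro x hx
      rw [mem_UU hs0 hac hs] at hx
      obtain ⟨k, δ, h1, h2, h3, h4, -⟩ := hx
      exact ⟨k, δ, h1, h2, h3, h4⟩

/-- The links of the nonempty cliques are homology spheres. -/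
theorem tg_link {F : Type} [Field F] {D : ℕ} (hD : 1 ≤ D) (hN : 3 * D < N) (T : Finset (TV N))
    (hT : (tg N D).IsClique (T : Set (TV N))) (hne : T.Nonempty) (i : ℕ) :
    betti F (tg N D) (lnk (tg N D) T) i = if i + T.card = D + 1 then 1 else 0 := by
  obtain ⟨a, c, P, s, B, h1, h2, h3, -, h4⟩ := lnk_eq hD hN T hT hne
  have hB : ∀ i, betti F (tg N D) B i = if i = s then 1 else 0 := by
    rcases h4 with ⟨h4, h5⟩ | ⟨h4, h5, ε, ε', h6⟩
    · subst h4
      rw [h5]
      exact betti_empty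
    · rw [h6]
      exact h5.bettiU h4 ε ε'
  rw [h1, cross_betti hB P h2]
  have : (i = s + P.card) ↔ (i + T.card = D + 1) := by omega
  simp only [this]

/-- The neighbours of a vertex. -/
theorem tg_nbr {D : ℕ} (hD : 1 ≤ D) (hN : 3 * D < N) (v : TV N) :
    fp (tg N D) ((tg N D).neighborSet v) = (1 + 2 * X) ^ D +
      ((2 * (D - 1) : ℕ) : Polynomial ℤ) * ((X + X ^ 2) * (1 + 2 * X) ^ (D - 2)) := by
  obtain ⟨a, c, P, s, B, h1, h2, h3, h5, h4⟩ := lnk_eq hD hN {v} (by simp) (by simp)
  have hP := h5 (Finset.card_singleton v)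
  subst hP
  rw [Finset.card_singleton, Finset.card_empty] at h3
  have hs : s = D := by omega
  subst hs
  have h6 : lnk (tg N s) {v} = (tg N s).neighborSet v := by
    ext x
    simp only [lnk, Finset.mem_singleton, forall_eq, SimpleGraph.mem_neighborSet]
    exact ⟨fun h => h.symm, fun h => h.symm⟩
  have h7 : CS ph (∅ : Finset ℤ) ∪ B = B := by
    ext x
    simp [CS]
  rw [h6, h7] at h1
  rw [h1]
  rcases h4 with ⟨h4, _⟩ | ⟨h4, h8, ε, ε', h9⟩
  · omega
  · rw [h9]
    exact h8.fpU h4 ε ε'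

/-- two polynomials with the same derivative and the same value at `0` -/
theorem eq_of_deriv {p q : Polynomial ℤ} (h : Polynomial.derivative p = Polynomial.derivative q)
    (h0 : p.eval 0 = q.eval 0) : p = q := by
  have h1 : Polynomial.derivative (p - q) = 0 := by rw [map_sub, h, sub_self]
  have h2 := Polynomial.natDegree_eq_zero_of_derivative_eq_zero h1
  have h3 := Polynomial.eq_C_of_natDegree_eq_zero h2
  have h4 : (p - q).coeff 0 = 0 := by
    rw [Polynomial.coeff_zero_eq_eval_zero, Polynomial.eval_sub, h0, sub_self]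
  rw [h4, map_zero] at h3
  exact sub_eq_zero.1 h3

/-- The face polynomial. -/
theorem tg_fp {D : ℕ} (hD : 1 ≤ D) (hN : 3 * D < N) :
    fp (tg N D) Set.univ = 1 + ((2 * N : ℕ) : Polynomial ℤ) * ((X + X ^ 2) * (1 + 2 * X) ^ (D - 1)) := by
  apply eq_of_deriv
  · rw [fp_deriv, Finset.sum_congr rfl fun v _ => tg_nbr hD hN v, Finset.sum_const,
      Finset.card_univ, card_TV, nsmul_eq_mul]
    obtain ⟨E, rfl⟩ : ∃ E, D = E + 1 := ⟨D - 1, by omega⟩
    simp only [Nat.add_sub_cancel]
    rcases Nat.eq_zero_or_pos E with hE | hE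
    · subst hE
      simp [Polynomial.derivative_add, Polynomial.derivative_mul]
    · obtain ⟨E', rfl⟩ : ∃ E', E = E' + 1 := ⟨E - 1, by omega⟩
      have h1 : E' + 1 + 1 - 2 = E' := by omega
      rw [h1]
      simp only [Polynomial.derivative_add, Polynomial.derivative_mul, Polynomial.derivative_one,
        Polynomial.derivative_natCast, Polynomial.derivative_X, Polynomial.derivative_X_pow,
        Polynomial.derivative_pow, Polynomial.derivative_ofNat, Nat.add_sub_cancel]
      push_cast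
      simp only [map_add, map_natCast, map_one, Polynomial.C_ofNat, pow_succ]
      ring
  · rw [fp_eval_zero]
    simp

/-- The graph is connected. -/
theorem tg_connected {D : ℕ} (hD : 2 ≤ D) (hN : 3 * D < N) : (tg N D).Connected := by
  have hadj : ∀ (k : ℤ) (δ δ' : Bool), (tg N D).Adj (ph k δ) (ph (k + 1) δ') := by
    intro k δ δ'
    rw [adj_ph hN (by rw [abs_le]; omega)]
    exact ⟨by omega, Or.inl (by rw [abs_lt]; omega)⟩
  have h1 : ∀ (m : ℕ) (δ : Bool), (tg N D).Reachable (ph 0 true) (ph ((m : ℤ) + 1) δ) := by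
    intro m
    induction m with
    | zero =>
      intro δ
      have := (hadj 0 true δ).reachable
      simpa using this
    | succ m ih =>
      intro δ
      have h2 := (hadj ((m : ℤ) + 1) true δ).reachable
      have h3 := (ih true).trans h2
      push_cast
      exact h3
  rw [SimpleGraph.connected_iff]
  refine ⟨?_, ⟨ph 0 true⟩⟩
  have h2 : ∀ x : TV N, (tg N D).Reachable (ph 0 true) x := by
    intro x
    obtain ⟨k, hk⟩ := exists_ph x
    obtain ⟨m, hm⟩ : ∃ m : ℕ, (ph k x.2 : TV N) = ph ((m : ℤ) + 1) x.2 := by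
      refine ⟨((k - 1) % N).toNat, ?_⟩
      unfold ph
      refine Prod.ext ?_ rfl
      show (k : ZMod N) = _
      rw [ZMod.intCast_eq_intCast_iff_dvd_sub]
      have hN0 : (N : ℤ) ≠ 0 := by
        have := NeZero.ne N
        exact_mod_cast this
      rw [Int.toNat_of_nonneg (Int.emod_nonneg _ hN0)]
      have h3 := Int.emod_add_mul_ediv (k - 1) N
      refine ⟨-((k - 1) / N), ?_⟩
      linarith
    rw [hk, hm]
    exact h1 m _
  intro x y
  exact (h2 x).symm.trans (h2 y)

end

end Pool.Agent.K4H87.FM
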