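import Pool.Agent.K4H87.FM.Mfd

set_option autoImplicit false

/-!
# The `h`-, `g`- and `γ`-numbers
-/

namespace Pool.Agent.K4H87.FM

open Finset Pool.Agent.R580.CD Polynomial

open Classical in
/-- `faces G k` is the number `f_(k-1)` of the simplices with `k` vertices of the clique complex of
`G`. -/
noncomputable def faces {V : Type} [Fintype V] (G : SimpleGraph V) (k : ℕ) : ℤ :=
  (((univ : Finset (Finset V)).filter (fun T : Finset V => G.IsClique (T : Set V) ∧ T.card = k)).card : ℤ)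

/-- The `h`-numbers of a `(d-1)`-dimensional complex with `f k` simplices with `k` vertices:
`∑ h_i x^(d-i) = ∑ f_(i-1) (x-1)^(d-i)`. -/
noncomputable def hnum (d : ℕ) (f : ℕ → ℤ) (i : ℕ) : ℤ :=
  (∑ k ∈ range (d + 1), C (f k) * (X - 1 : ℤ[X]) ^ (d - k)).coeff (d - i)

/-- The `g`-numbers `g_i = h_i - h_(i-1)` (for `i ≥ 1`). -/
noncomputable def gnum (d : ℕ) (f : ℕ → ℤ) (i : ℕ) : ℤ := hnum d f i - hnum d f (i - 1)

/-- `γ` is the `γ`-vector of a `(2r-1)`-dimensional complex with `f k` simplices with `k` vertices: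
`∑ h_i x^i = ∑ γ_i x^i (1+x)^(2r-2i)`. -/
def IsGamma (r : ℕ) (f : ℕ → ℤ) (γ : ℕ → ℤ) : Prop :=
  ∑ i ∈ range (2 * r + 1), C (hnum (2 * r) f i) * X ^ i =
    ∑ i ∈ range (r + 1), C (γ i) * X ^ i * (1 + X) ^ (2 * r - 2 * i)

theorem coeff_fp {V : Type} [Fintype V] [LinearOrder V] (G : SimpleGraph V) (k : ℕ) :
    (fp G Set.univ).coeff k = faces G k := by
  classical
  unfold fp faces
  rw [Polynomial.finsetSum_coeff, Finset.card_filter, Nat.cast_sum]
  refine Finset.sum_congr rfl fun T _ => ?_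
  by_cases hT : G.IsClique (T : Set V)
  · rw [if_pos ⟨hT, Set.subset_univ _⟩, Polynomial.coeff_X_pow]
    by_cases hk : T.card = k
    · rw [if_pos hk.symm, if_pos ⟨hT, hk⟩]
      rfl
    · rw [if_neg (Ne.symm hk), if_neg (fun h => hk h.2)]
      rfl
  · rw [if_neg (fun h => hT h.1), if_neg (fun h => hT h.1)]
    simp

/-- `∑ p_k x^k (1-x)^(d-k)` -/
noncomputable def HH (d : ℕ) (f : ℕ → ℤ) : ℤ[X] :=
  ∑ k ∈ range (d + 1), C (f k) * (X ^ k * (1 - X) ^ (d - k))

theorem coeff_one_sub (m k : ℕ) : ((1 - X : ℤ[X]) ^ m).coeff k = (-1) ^ k * (m.choose k : ℤ) := by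
  induction m generalizing k with
  | zero =>
    rw [pow_zero, Polynomial.coeff_one]
    rcases Nat.eq_zero_or_pos k with rfl | hk
    · simp
    · rw [if_neg (by omega), Nat.choose_eq_zero_of_lt hk]
      simp
  | succ m ih =>
    rw [pow_succ, mul_sub, mul_one, Polynomial.coeff_sub]
    rcases k with _ | k
    · rw [Polynomial.coeff_mul_X_zero, ih]
      simp
    · rw [Polynomial.coeff_mul_X, ih, ih, Nat.choose_succ_succ]
      push_cast
      ring

theorem coeff_X_sub (m k : ℕ) (hk : k ≤ m) :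
    ((X - 1 : ℤ[X]) ^ m).coeff (m - k) = (-1) ^ k * (m.choose k : ℤ) := by
  have h1 : (X - 1 : ℤ[X]) ^ m = (-1) ^ m * (1 - X) ^ m := by
    rw [← mul_pow]
    congr 1
    ring
  have h2 : (-1 : ℤ[X]) ^ m = C ((-1 : ℤ) ^ m) := by simp
  rw [h1, h2, Polynomial.coeff_C_mul, coeff_one_sub, Nat.choose_symm hk, ← mul_assoc, ← pow_add]
  congr 1
  rw [show m + (m - k) = k + 2 * (m - k) by omega, pow_add, pow_mul]
  simp

theorem coeff_HH (d : ℕ) (f : ℕ → ℤ) {i : ℕ} (hi : i ≤ d) : (HH d f).coeff i = hnum d f i := by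
  unfold HH hnum
  rw [Polynomial.finsetSum_coeff, Polynomial.finsetSum_coeff]
  refine Finset.sum_congr rfl fun k hk => ?_
  rw [Finset.mem_range] at hk
  rw [Polynomial.coeff_C_mul, Polynomial.coeff_C_mul]
  congr 1
  rw [Polynomial.coeff_X_pow_mul']
  split_ifs with h
  · rw [coeff_one_sub, ← coeff_X_sub (d - k) (i - k) (by omega)]
    congr 1
    omega
  · rw [Polynomial.coeff_eq_zero_of_natDegree_lt]
    have h1 : ((X - 1 : ℤ[X]) ^ (d - k)).natDegree ≤ d - k := by
      refine Polynomial.natDegree_pow_le.trans ?_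
      have : (X - 1 : ℤ[X]).natDegree ≤ 1 := by
        have := Polynomial.natDegree_X_sub_C_le (1 : ℤ)
        simpa using this
      nlinarith
    omega

theorem HH_natDegree (d : ℕ) (f : ℕ → ℤ) : (HH d f).natDegree ≤ d := by
  unfold HH
  refine Polynomial.natDegree_sum_le_of_forall_le _ _ fun k hk => ?_
  rw [Finset.mem_range] at hk
  have h1 : (1 - X : ℤ[X]).natDegree ≤ 1 := by
    have := Polynomial.natDegree_sub_le (1 : ℤ[X]) X
    simpa using this
  calc (C (f k) * (X ^ k * (1 - X) ^ (d - k))).natDegree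
      ≤ (X ^ k * (1 - X : ℤ[X]) ^ (d - k)).natDegree := Polynomial.natDegree_C_mul_le _ _
    _ ≤ (X ^ k : ℤ[X]).natDegree + ((1 - X : ℤ[X]) ^ (d - k)).natDegree :=
        Polynomial.natDegree_mul_le
    _ ≤ k + (d - k) * 1 := by
        refine add_le_add (by simp) ?_
        exact Polynomial.natDegree_pow_le.trans (Nat.mul_le_mul_left _ h1)
    _ = d := by omega

theorem sum_hnum (d : ℕ) (f : ℕ → ℤ) :
    ∑ i ∈ range (d + 1), C (hnum d f i) * X ^ i = HH d f := by
  ext n
  rw [Polynomial.finsetSum_coeff]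
  by_cases hn : n ≤ d
  · rw [Finset.sum_eq_single n]
    · rw [Polynomial.coeff_C_mul, Polynomial.coeff_X_pow_self, mul_one, coeff_HH d f hn]
    · intro i _ hi
      rw [Polynomial.coeff_C_mul, Polynomial.coeff_X_pow, if_neg (Ne.symm hi), mul_zero]
    · intro h
      exact absurd (Finset.mem_range.2 (by omega)) h
  · rw [Polynomial.coeff_eq_zero_of_natDegree_lt (lt_of_le_of_lt (HH_natDegree d f) (by omega))]
    refine Finset.sum_eq_zero fun i hi => ?_
    rw [Finset.mem_range] at hi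
    rw [Polynomial.coeff_C_mul, Polynomial.coeff_X_pow, if_neg (by omega), mul_zero]

/-- evaluation of `HH` -/
theorem eval_HH (d : ℕ) (p : ℤ[X]) (hp : p.natDegree ≤ d) (x : ℚ) (hx : x ≠ 1) :
    ((HH d p.coeff).map (Int.castRingHom ℚ)).eval x =
      (1 - x) ^ d * (p.map (Int.castRingHom ℚ)).eval (x / (1 - x)) := by
  have h1 : (1 : ℚ) - x ≠ 0 := sub_ne_zero.2 (Ne.symm hx)
  unfold HH
  rw [Polynomial.map_sum, Polynomial.eval_finsetSum]
  have h2 : (p.map (Int.castRingHom ℚ)).eval (x / (1 - x)) =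
      ∑ k ∈ range (d + 1), (p.coeff k : ℚ) * (x / (1 - x)) ^ k := by
    rw [Polynomial.eval_eq_sum_range' (n := d + 1)
      (lt_of_le_of_lt Polynomial.natDegree_map_le (by omega))]
    refine Finset.sum_congr rfl fun k _ => ?_
    rw [Polynomial.coeff_map]
    rfl
  rw [h2, Finset.mul_sum]
  refine Finset.sum_congr rfl fun k hk => ?_
  rw [Finset.mem_range] at hk
  simp only [Polynomial.map_mul, Polynomial.map_pow, Polynomial.map_sub, Polynomial.map_one,
    Polynomial.map_X, Polynomial.map_C, Polynomial.eval_mul, Polynomial.eval_pow,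
    Polynomial.eval_sub, Polynomial.eval_one, Polynomial.eval_X, Polynomial.eval_C,
    Int.coe_castRingHom]
  rw [div_pow]
  have h3 : (1 - x) ^ d = (1 - x) ^ (d - k) * (1 - x) ^ k := by
    rw [← pow_add]
    congr 1
    omega
  rw [h3]
  have h4 : (1 - x) ^ k ≠ 0 := pow_ne_zero _ h1
  field_simp

theorem Phi_natDegree (r : ℕ) (γ : ℕ → ℤ) : (Phi (2 * r) γ).natDegree ≤ 2 * r := by
  unfold Phi
  refine Polynomial.natDegree_sum_le_of_forall_le _ _ fun i hi => ?_
  rw [Finset.mem_range] at hi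
  have h1 : (X + X ^ 2 : ℤ[X]).natDegree ≤ 2 := by
    refine (Polynomial.natDegree_add_le _ _).trans ?_
    simp
  have h2 : (1 + 2 * X : ℤ[X]).natDegree ≤ 1 := by
    refine (Polynomial.natDegree_add_le _ _).trans ?_
    have : (2 * X : ℤ[X]).natDegree ≤ 1 := by
      have := Polynomial.natDegree_C_mul_le (2 : ℤ) X
      simpa using this
    simpa using this
  calc (C (γ i) * (X + X ^ 2) ^ i * (1 + 2 * X) ^ (2 * r - 2 * i)).natDegree
      ≤ (C (γ i) * (X + X ^ 2) ^ i).natDegree + ((1 + 2 * X : ℤ[X]) ^ (2 * r - 2 * i)).natDegree :=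
        Polynomial.natDegree_mul_le
    _ ≤ i * 2 + (2 * r - 2 * i) * 1 := by
        refine add_le_add ?_ (Polynomial.natDegree_pow_le.trans (Nat.mul_le_mul_left _ h2))
        exact (Polynomial.natDegree_C_mul_le _ _).trans
          (Polynomial.natDegree_pow_le.trans (Nat.mul_le_mul_left _ h1))
    _ ≤ 2 * r := by omega

/-- From the face polynomial to the `γ`-vector. -/
theorem isGamma_of_Phi {r : ℕ} {f γ : ℕ → ℤ} (h : ∀ k, (Phi (2 * r) γ).coeff k = f k) :
    IsGamma r f γ := by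
  unfold IsGamma
  rw [sum_hnum]
  have hf : f = (Phi (2 * r) γ).coeff := funext fun k => (h k).symm
  rw [hf]
  apply Polynomial.map_injective (Int.castRingHom ℚ) Int.cast_injective
  apply Polynomial.eq_of_infinite_eval_eq
  refine Set.Infinite.mono (s := {x : ℚ | x ≠ 1}) ?_ ?_
  · intro x hx
    have hx : x ≠ 1 := hx
    have h1 : (1 : ℚ) - x ≠ 0 := sub_ne_zero.2 (Ne.symm hx)
    show _ = _
    rw [eval_HH _ _ (Phi_natDegree r γ) x hx]
    unfold Phi
    rw [Polynomial.map_sum, Polynomial.map_sum, Polynomial.eval_finsetSum,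
      Polynomial.eval_finsetSum, Finset.mul_sum, show 2 * r / 2 + 1 = r + 1 by omega]
    refine Finset.sum_congr rfl fun i hi => ?_
    rw [Finset.mem_range] at hi
    simp only [Polynomial.map_mul, Polynomial.map_pow, Polynomial.map_add, Polynomial.map_one,
      Polynomial.map_X, Polynomial.map_C, Polynomial.eval_mul, Polynomial.eval_pow,
      Polynomial.eval_add, Polynomial.eval_one, Polynomial.eval_X, Polynomial.eval_C,
      Int.coe_castRingHom, Polynomial.map_ofNat, Polynomial.eval_ofNat]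
    have h2 : x / (1 - x) + (x / (1 - x)) ^ 2 = x / (1 - x) ^ 2 := by
      field_simp
      ring
    have h3 : 1 + 2 * (x / (1 - x)) = (1 + x) / (1 - x) := by
      field_simp
      ring
    have h4 : (1 - x) ^ (2 * r) = ((1 - x) ^ 2) ^ i * (1 - x) ^ (2 * r - 2 * i) := by
      rw [← pow_mul, ← pow_add]
      congr 1
      omega
    rw [h2, h3, h4, div_pow, div_pow]
    have h5 : ((1 - x) ^ 2) ^ i ≠ 0 := pow_ne_zero _ (pow_ne_zero _ h1)
    have h6 : (1 - x) ^ (2 * r - 2 * i) ≠ 0 := pow_ne_zero _ h1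
    field_simp
  · have h1 : ({x : ℚ | x ≠ 1} : Set ℚ) = {1}ᶜ := by
      ext x
      simp
    rw [h1]
    exact (Set.finite_singleton (1 : ℚ)).infinite_compl

/-- `1` in terms of `1 + 2x` and `x + x^2` -/
theorem one_eq_sum (r : ℕ) : (1 : ℤ[X]) = ∑ i ∈ range (r + 1),
    C ((-4) ^ i * (r.choose i : ℤ)) * (X + X ^ 2) ^ i * (1 + 2 * X) ^ (2 * r - 2 * i) := by
  have h1 : (1 : ℤ[X]) = (-4 * (X + X ^ 2) + (1 + 2 * X) ^ 2) ^ r := by
    have : (-4 * (X + X ^ 2) + (1 + 2 * X) ^ 2 : ℤ[X]) = 1 := by ring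
    rw [this, one_pow]
  conv_lhs => rw [h1, add_pow]
  refine Finset.sum_congr rfl fun i hi => ?_
  rw [Finset.mem_range] at hi
  rw [mul_pow, ← pow_mul, show 2 * (r - i) = 2 * r - 2 * i by omega]
  have : (C ((-4) ^ i * (r.choose i : ℤ)) : ℤ[X]) = (-4) ^ i * (r.choose i : ℤ[X]) := by
    simp
  rw [this]
  ring

end Pool.Agent.K4H87.FM
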