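import Pool.Agent.K4H87.FM.Cross

set_option autoImplicit false
set_option linter.unusedSectionVars false

/-!
# The links in a tube
-/

namespace Pool.Agent.K4H87.FM

open Finset Pool.Agent.R580.CD
open Polynomial (X)

section

variable {V : Type} [Fintype V] [LinearOrder V] {F : Type} [Field F] {G : SimpleGraph V}

/-- the adjacency of the neighbours of a vertex of a tube -/
structure TL (G : SimpleGraph V) (w : ℤ → Bool → V) (s : ℕ) : Prop where
  inj : ∀ k k' : ℤ, ∀ δ δ', |k| ≤ s → |k'| ≤ s → w k δ = w k' δ' → k = k' ∧ δ = δ'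
  adj : ∀ k k' : ℤ, ∀ δ δ', k ≠ 0 → k' ≠ 0 → |k| ≤ s → |k'| ≤ s →
    (G.Adj (w k δ) (w k' δ') ↔ k ≠ k' ∧ (0 < k * k' ∨ |k - k'| < s ∨ (|k - k'| = s ∧ δ = δ')))

theorem TL.neg_neg {w : ℤ → Bool → V} {s : ℕ} (h : TL G w s) {k k' : ℤ} (δ δ' : Bool)
    (hk : k < 0) (hk' : k' < 0) (h1 : -(s : ℤ) ≤ k) (h2 : -(s : ℤ) ≤ k') (hne : k ≠ k') :
    G.Adj (w k δ) (w k' δ') := by
  rw [h.adj k k' δ δ' (by omega) (by omega) (by rw [abs_le]; omega) (by rw [abs_le]; omega)]
  exact ⟨hne, Or.inl (mul_pos_of_neg_of_neg hk hk')⟩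

theorem TL.pos_pos {w : ℤ → Bool → V} {s : ℕ} (h : TL G w s) {k k' : ℤ} (δ δ' : Bool)
    (hk : 0 < k) (hk' : 0 < k') (h1 : k ≤ s) (h2 : k' ≤ s) (hne : k ≠ k') :
    G.Adj (w k δ) (w k' δ') := by
  rw [h.adj k k' δ δ' (by omega) (by omega) (by rw [abs_le]; omega) (by rw [abs_le]; omega)]
  exact ⟨hne, Or.inl (mul_pos hk hk')⟩

theorem TL.pos_neg {w : ℤ → Bool → V} {s : ℕ} (h : TL G w s) {k k' : ℤ} (δ δ' : Bool)
    (hk : 0 < k) (hk' : k' < 0) (h1 : k ≤ s) (h2 : -(s : ℤ) ≤ k') :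
    G.Adj (w k δ) (w k' δ') ↔ (k - k' < s ∨ (k - k' = s ∧ δ = δ')) := by
  rw [h.adj k k' δ δ' (by omega) (by omega) (by rw [abs_le]; omega) (by rw [abs_le]; omega),
    abs_of_pos (by omega)]
  constructor
  · rintro ⟨_, h3 | h3⟩
    · have := mul_neg_of_pos_of_neg hk hk'
      omega
    · exact h3
  · intro h3
    exact ⟨by omega, Or.inr h3⟩

theorem TL.nself {w : ℤ → Bool → V} {s : ℕ} (h : TL G w s) {k : ℤ} (δ δ' : Bool)
    (hk : k ≠ 0) (h1 : |k| ≤ s) : ¬ G.Adj (w k δ) (w k δ') := by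
  rw [h.adj k k δ δ' hk hk h1 h1]
  exact fun h => h.1 rfl

theorem TL.ne {w : ℤ → Bool → V} {s : ℕ} (h : TL G w s) {k : ℤ} (h1 : |k| ≤ s) :
    w k false ≠ w k true := by
  intro h2
  have := (h.inj k k false true h1 h1 h2).2
  exact absurd this (by decide)

/-- the positions next to the new vertex -/
noncomputable def PP (s j : ℕ) : Finset ℤ := Icc (-((s : ℤ) - j - 2)) (-1) ∪ Icc 1 (j : ℤ)

theorem PP_card {s j : ℕ} (h : j + 1 < s) : (PP s j).card = s - 2 := by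
  unfold PP
  rw [Finset.card_union_of_disjoint, Int.card_Icc, Int.card_Icc]
  · omega
  · rw [Finset.disjoint_left]
    intro k hk hk'
    rw [Finset.mem_Icc] at hk hk'
    omega

theorem TL.pairsPP {w : ℤ → Bool → V} {s : ℕ} (h : TL G w s) {j : ℕ} (hj : j + 1 < s) (δ : Bool) :
    Pairs G w (PP s j) {w (-((s : ℤ) - j - 1)) δ} := by
  have hP : ∀ k ∈ PP s j, k ≠ 0 ∧ -((s : ℤ) - j - 2) ≤ k ∧ k ≤ j := by
    intro k hk
    unfold PP at hk
    rw [Finset.mem_union, Finset.mem_Icc, Finset.mem_Icc] at hk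
    omega
  refine ⟨fun k hk k' hk' hne δ δ' => ?_, fun k hk => ?_, fun k hk => ?_, fun k hk δ' x hx => ?_⟩
  · obtain ⟨h1, h2, h3⟩ := hP k hk
    obtain ⟨h1', h2', h3'⟩ := hP k' hk'
    rcases lt_or_gt_of_ne h1 with h4 | h4 <;> rcases lt_or_gt_of_ne h1' with h4' | h4'
    · exact h.neg_neg δ δ' h4 h4' (by omega) (by omega) hne
    · refine SimpleGraph.Adj.symm ?_
      rw [h.pos_neg δ' δ h4' h4 (by omega) (by omega)]
      left; omega
    · rw [h.pos_neg δ δ' h4 h4' (by omega) (by omega)]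
      left; omega
    · exact h.pos_pos δ δ' h4 h4' (by omega) (by omega) hne
  · obtain ⟨h1, h2, h3⟩ := hP k hk
    exact h.nself _ _ h1 (by rw [abs_le]; omega)
  · obtain ⟨h1, h2, h3⟩ := hP k hk
    exact h.ne (by rw [abs_le]; omega)
  · obtain ⟨h1, h2, h3⟩ := hP k hk
    rw [Set.mem_singleton_iff] at hx
    subst hx
    rcases lt_or_gt_of_ne h1 with h4 | h4
    · exact h.neg_neg _ _ h4 (by omega) (by omega) (by omega) (by omega)
    · rw [h.pos_neg _ _ h4 (by omega) (by omega) (by omega)]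
      left; omega

/-- the lower part -/
def Low (w : ℤ → Bool → V) (s : ℕ) (ε : Bool) : Set V :=
  CS w (Icc (-((s : ℤ) - 1)) (-1)) ∪ {w (-(s : ℤ)) ε}

/-- the partial links -/
def Aj (w : ℤ → Bool → V) (s : ℕ) (ε : Bool) (j : ℕ) : Set V :=
  CS w (Icc 1 (j : ℤ)) ∪ Low w s ε

theorem mem_Aj {w : ℤ → Bool → V} {s : ℕ} {ε : Bool} {j : ℕ} {x : V} : x ∈ Aj w s ε j ↔
    (∃ k δ, 1 ≤ k ∧ k ≤ (j : ℤ) ∧ x = w k δ) ∨ (∃ k δ, -((s : ℤ) - 1) ≤ k ∧ k ≤ -1 ∧ x = w k δ) ∨
      x = w (-(s : ℤ)) ε := by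
  unfold Aj Low CS
  simp only [Set.mem_union, Set.mem_setOf_eq, Finset.mem_Icc, Set.mem_singleton_iff]
  constructor
  · rintro (⟨k, hk, δ, rfl⟩ | ⟨k, hk, δ, rfl⟩ | h)
    · exact Or.inl ⟨k, δ, hk.1, hk.2, rfl⟩
    · exact Or.inr (Or.inl ⟨k, δ, hk.1, hk.2, rfl⟩)
    · exact Or.inr (Or.inr h)
  · rintro (⟨k, δ, h1, h2, rfl⟩ | ⟨k, δ, h1, h2, rfl⟩ | h)
    · exact Or.inl ⟨k, ⟨h1, h2⟩, δ, rfl⟩
    · exact Or.inr (Or.inl ⟨k, ⟨h1, h2⟩, δ, rfl⟩)
    · exact Or.inr (Or.inr h)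

theorem TL.inter {w : ℤ → Bool → V} {s : ℕ} (h : TL G w s) (ε : Bool) {j : ℕ} (hj : j + 1 < s)
    (δ : Bool) : Aj w s ε j ∩ G.neighborSet (w ((j : ℤ) + 1) δ) =
      CS w (PP s j) ∪ {w (-((s : ℤ) - j - 1)) δ} := by
  ext x
  rw [Set.mem_inter_iff, mem_Aj, SimpleGraph.mem_neighborSet]
  constructor
  · rintro ⟨⟨k, δ', h1, h2, rfl⟩ | ⟨k, δ', h1, h2, rfl⟩ | rfl, hadj⟩
    · left
      refine ⟨k, ?_, δ', rfl⟩
      unfold PP
      rw [Finset.mem_union, Finset.mem_Icc, Finset.mem_Icc]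
      right; omega
    · rw [h.pos_neg _ _ (by omega) (by omega) (by omega) (by omega)] at hadj
      rcases hadj with hadj | ⟨hadj, rfl⟩
      · left
        refine ⟨k, ?_, δ', rfl⟩
        unfold PP
        rw [Finset.mem_union, Finset.mem_Icc, Finset.mem_Icc]
        left; omega
      · right
        rw [Set.mem_singleton_iff]
        congr 1
        omega
    · rw [h.pos_neg _ _ (by omega) (by omega) (by omega) (by omega)] at hadj
      omega
  · rintro (⟨k, hk, δ', rfl⟩ | hx)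
    · unfold PP at hk
      rw [Finset.mem_union, Finset.mem_Icc, Finset.mem_Icc] at hk
      rcases hk with hk | hk
      · refine ⟨Or.inr (Or.inl ⟨k, δ', by omega, by omega, rfl⟩), ?_⟩
        rw [h.pos_neg _ _ (by omega) (by omega) (by omega) (by omega)]
        left; omega
      · exact ⟨Or.inl ⟨k, δ', by omega, by omega, rfl⟩,
          h.pos_pos _ _ (by omega) (by omega) (by omega) (by omega) (by omega)⟩
    · rw [Set.mem_singleton_iff] at hx
      subst hx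
      refine ⟨Or.inr (Or.inl ⟨_, δ, by omega, by omega, rfl⟩), ?_⟩
      rw [h.pos_neg _ _ (by omega) (by omega) (by omega) (by omega)]
      right
      exact ⟨by omega, rfl⟩

theorem TL.notMem {w : ℤ → Bool → V} {s : ℕ} (h : TL G w s) (ε : Bool) {j : ℕ} {k : ℤ}
    (hj : (j : ℤ) < k) (hk : k ≤ s) (δ : Bool) : w k δ ∉ Aj w s ε j := by
  rw [mem_Aj]
  rintro (⟨k', δ', h1, h2, h3⟩ | ⟨k', δ', h1, h2, h3⟩ | h3)
  · have := (h.inj _ _ _ _ (by rw [abs_le]; omega) (by rw [abs_le]; omega) h3).1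
    omega
  · have := (h.inj _ _ _ _ (by rw [abs_le]; omega) (by rw [abs_le]; omega) h3).1
    omega
  · have := (h.inj _ _ _ _ (by rw [abs_le]; omega) (by rw [abs_le]; omega) h3).1
    omega

theorem Aj_succ (w : ℤ → Bool → V) (s : ℕ) (ε : Bool) (j : ℕ) :
    Aj w s ε (j + 1) = insert (w ((j : ℤ) + 1) true) (insert (w ((j : ℤ) + 1) false) (Aj w s ε j)) := by
  unfold Aj
  rw [← CS_insert]
  congr 2
  ext k
  rw [Finset.mem_insert, Finset.mem_Icc, Finset.mem_Icc]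
  push_cast
  omega

theorem TL.nmem2 {w : ℤ → Bool → V} {s : ℕ} (h : TL G w s) (ε : Bool) {j : ℕ} (hj : j + 1 < s) :
    w ((j : ℤ) + 1) true ∉ insert (w ((j : ℤ) + 1) false) (Aj w s ε j) := by
  rintro (h1 | h1)
  · exact h.ne (by rw [abs_le]; omega) h1.symm
  · exact h.notMem ε (by omega) (by omega) true h1

theorem TL.inter2 {w : ℤ → Bool → V} {s : ℕ} (h : TL G w s) (ε : Bool) {j : ℕ} (hj : j + 1 < s) :
    insert (w ((j : ℤ) + 1) false) (Aj w s ε j) ∩ G.neighborSet (w ((j : ℤ) + 1) true) =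
      CS w (PP s j) ∪ {w (-((s : ℤ) - j - 1)) true} := by
  rw [← h.inter ε hj true]
  ext x
  constructor
  · rintro ⟨rfl | h1, h2⟩
    · exact absurd h2 (h.nself _ _ (by omega) (by rw [abs_le]; omega))
    · exact ⟨h1, h2⟩
  · rintro ⟨h1, h2⟩
    exact ⟨Or.inr h1, h2⟩

theorem TL.acyc {w : ℤ → Bool → V} {s : ℕ} (hs : 1 ≤ s) (h : TL G w s) (ε : Bool) :
    ∀ j : ℕ, j < s → Acyc F G (Aj w s ε j) := by
  intro j
  induction j with
  | zero =>
    intro _
    refine acyc_cone (v := w (-(s : ℤ)) ε) (mem_Aj.2 (Or.inr (Or.inr rfl))) ?_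
    intro u hu hne
    rw [mem_Aj] at hu
    rcases hu with ⟨k, δ, h1, h2, rfl⟩ | ⟨k, δ, h1, h2, rfl⟩ | rfl
    · push_cast at h2
      omega
    · exact h.neg_neg _ _ (by omega) (by omega) (by omega) (by omega) (by omega)
    · exact absurd rfl hne
  | succ j ih =>
    intro hj
    have hA := ih (by omega)
    rw [Aj_succ]
    have hcone : ∀ δ : Bool, ∀ u ∈ CS w (PP s j) ∪ {w (-((s : ℤ) - j - 1)) δ},
        u ≠ w (-((s : ℤ) - j - 1)) δ → G.Adj (w (-((s : ℤ) - j - 1)) δ) u := by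
      rintro δ u (⟨k, hk, δ', rfl⟩ | hu) hne
      · exact ((h.pairsPP hj δ).base k hk δ' _ rfl).symm
      · exact absurd hu hne
    have hA1 : Acyc F G (insert (w ((j : ℤ) + 1) false) (Aj w s ε j)) := by
      refine acyc_insert (w := w (-((s : ℤ) - j - 1)) false) hA
        (h.notMem ε (by omega) (by omega) false) ?_ ?_
      · rw [h.inter ε hj false]
        exact Or.inr rfl
      · rw [h.inter ε hj false]
        exact hcone false
    refine acyc_insert (w := w (-((s : ℤ) - j - 1)) true) hA1 (h.nmem2 ε hj) ?_ ?_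
    · rw [h.inter2 ε hj]
      exact Or.inr rfl
    · rw [h.inter2 ε hj]
      exact hcone true

theorem TL.fpA {w : ℤ → Bool → V} {s : ℕ} (hs : 1 ≤ s) (h : TL G w s) (ε : Bool) :
    ∀ j : ℕ, j < s → fp G (Aj w s ε j) = (1 + X) * (1 + 2 * X) ^ (s - 1) +
      ((2 * j : ℕ) : Polynomial ℤ) * (X * (1 + X) * (1 + 2 * X) ^ (s - 2)) := by
  intro j
  have hsing : ∀ v : V, fp G {v} = 1 + X := by
    intro v
    have h1 := fp_cone (G := G) (A := ∅) (v := v) (Set.notMem_empty _) (by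
      intro u hu
      exact absurd hu (Set.notMem_empty _))
    rw [fp_empty, mul_one] at h1
    rw [← h1]
    congr 1
    ext x
    simp
  induction j with
  | zero =>
    intro _
    have h0 : Aj w s ε 0 = CS w (Icc (-((s : ℤ) - 1)) (-1)) ∪ {w (-(s : ℤ)) ε} := by
      unfold Aj Low
      ext x
      simp only [CS, Set.mem_union, Set.mem_setOf_eq, Finset.mem_Icc]
      constructor
      · rintro (⟨k, hk, _⟩ | h1)
        · push_cast at hk
          omega
        · exact h1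
      · exact Or.inr
    rw [h0, cross_fp _ ⟨?_, ?_, ?_, ?_⟩, hsing, Int.card_Icc]
    · have : ((-1 : ℤ) + 1 - -((s : ℤ) - 1)).toNat = s - 1 := by omega
      rw [this]
      push_cast
      ring
    · intro k hk k' hk' hne δ δ'
      rw [Finset.mem_Icc] at hk hk'
      exact h.neg_neg _ _ (by omega) (by omega) (by omega) (by omega) hne
    · intro k hk
      rw [Finset.mem_Icc] at hk
      exact h.nself _ _ (by omega) (by rw [abs_le]; omega)
    · intro k hk
      rw [Finset.mem_Icc] at hk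
      exact h.ne (by rw [abs_le]; omega)
    · intro k hk δ x hx
      rw [Finset.mem_Icc] at hk
      rw [Set.mem_singleton_iff] at hx
      subst hx
      exact h.neg_neg _ _ (by omega) (by omega) (by omega) (by omega) (by omega)
  | succ j ih =>
    intro hj
    rw [Aj_succ, fp_insert (h.nmem2 ε hj), h.inter2 ε hj,
      fp_insert (h.notMem ε (by omega) (by omega) false), h.inter ε hj false, ih (by omega),
      cross_fp _ (h.pairsPP hj false), cross_fp _ (h.pairsPP hj true), hsing, hsing, PP_card hj]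
    push_cast
    ring

/-- the link of the outermost vertices -/
def UU (w : ℤ → Bool → V) (s : ℕ) (ε ε' : Bool) : Set V :=
  insert (w (s : ℤ) ε') (Aj w s ε (s - 1))

theorem TL.pairsTop {w : ℤ → Bool → V} {s : ℕ} (h : TL G w s) :
    Pairs G w (Icc 1 ((s : ℤ) - 1)) ∅ := by
  refine ⟨fun k hk k' hk' hne δ δ' => ?_, fun k hk => ?_, fun k hk => ?_, fun k hk δ' x hx => ?_⟩
  · rw [Finset.mem_Icc] at hk hk'
    exact h.pos_pos _ _ (by omega) (by omega) (by omega) (by omega) hne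
  · rw [Finset.mem_Icc] at hk
    exact h.nself _ _ (by omega) (by rw [abs_le]; omega)
  · rw [Finset.mem_Icc] at hk
    exact h.ne (by rw [abs_le]; omega)
  · exact absurd hx (Set.notMem_empty _)

theorem TL.interTop {w : ℤ → Bool → V} {s : ℕ} (hs : 1 ≤ s) (h : TL G w s) (ε ε' : Bool) :
    Aj w s ε (s - 1) ∩ G.neighborSet (w (s : ℤ) ε') = CS w (Icc 1 ((s : ℤ) - 1)) ∪ ∅ := by
  ext x
  rw [Set.mem_inter_iff, mem_Aj, SimpleGraph.mem_neighborSet]
  constructor
  · rintro ⟨⟨k, δ', h1, h2, rfl⟩ | ⟨k, δ', h1, h2, rfl⟩ | rfl, hadj⟩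
    · left
      refine ⟨k, ?_, δ', rfl⟩
      rw [Finset.mem_Icc]
      omega
    · rw [h.pos_neg _ _ (by omega) (by omega) (by omega) (by omega)] at hadj
      omega
    · rw [h.pos_neg _ _ (by omega) (by omega) (by omega) (by omega)] at hadj
      omega
  · rintro (⟨k, hk, δ', rfl⟩ | hx)
    · rw [Finset.mem_Icc] at hk
      exact ⟨Or.inl ⟨k, δ', by omega, by omega, rfl⟩,
        h.pos_pos _ _ (by omega) (by omega) (by omega) (by omega) (by omega)⟩
    · exact absurd hx (Set.notMem_empty _)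

theorem TL.bettiU {w : ℤ → Bool → V} {s : ℕ} (hs : 1 ≤ s) (h : TL G w s) (ε ε' : Bool) (i : ℕ) :
    betti F G (UU w s ε ε') i = if i = s then 1 else 0 := by
  unfold UU
  obtain ⟨h1, h2⟩ := insert_betti (F := F) (h.acyc hs ε (s - 1) (by omega))
    (h.notMem ε (j := s - 1) (k := s) (by omega) le_rfl ε')
  cases i with
  | zero => rw [h1, if_neg (by omega)]
  | succ i =>
    rw [h2, h.interTop hs ε ε', cross_betti betti_empty _ h.pairsTop, Int.card_Icc]
    have : (i = 0 + ((s : ℤ) - 1 + 1 - 1).toNat) ↔ (i + 1 = s) := by omega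
    simp only [this]

theorem TL.fpU {w : ℤ → Bool → V} {s : ℕ} (hs : 1 ≤ s) (h : TL G w s) (ε ε' : Bool) :
    fp G (UU w s ε ε') = (1 + 2 * X) ^ s +
      ((2 * (s - 1) : ℕ) : Polynomial ℤ) * ((X + X ^ 2) * (1 + 2 * X) ^ (s - 2)) := by
  unfold UU
  rw [fp_insert (h.notMem ε (j := s - 1) (k := s) (by omega) le_rfl ε'), h.interTop hs ε ε',
    cross_fp _ h.pairsTop, fp_empty, h.fpA hs ε (s - 1) (by omega), Int.card_Icc]
  have : ((s : ℤ) - 1 + 1 - 1).toNat = s - 1 := by omega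
  rw [this]
  obtain ⟨t, rfl⟩ : ∃ t, s = t + 1 := ⟨s - 1, by omega⟩
  rw [Nat.add_sub_cancel, pow_succ]
  push_cast
  ring

end

end Pool.Agent.K4H87.FM
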